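import Pool.Agent.Q166.QR.Ring

/-!
# Quasiregular groups of type (h): the group ring equations, continued
-/

set_option autoImplicit false
set_option linter.all false

open Finset
open scoped Classical

namespace Pool.Agent.Q166.QR

/-- the data coming from a plane of type (h) -/
structure Hy (G : Type) [CommGroup G] [Fintype G] (k v : ℕ) (ι : Type) [Fintype ι] (N : ι → Subgroup G)
    (D : Finset G) : Prop where
  hk : 3 ≤ k
  hv : v + k = k ^ 2 + 1
  hG : Fintype.card G = v ^ 2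
  hι : Fintype.card ι = 2 * k
  hN : ∀ i, Nat.card (N i) = v
  hNN : ∀ i j, i ≠ j → N i ⊓ N j = ⊥
  hD : (D.card : ℤ) = ((k : ℤ) - 1) ^ 2
  hR : ∀ g : G, ((D.filter fun y => g * y ∈ D).card : ℤ) =
    (if g = 1 then (k : ℤ) ^ 2 else 0) + 1 - ∑ i, (if g ∈ N i then (1 : ℤ) else 0)

section

variable {G : Type} [CommGroup G] [Fintype G] {k v : ℕ} {ι : Type} [Fintype ι] {N : ι → Subgroup G}
  {D : Finset G}

/-- the sum of the subgroups -/
noncomputable def T (N : ι → Subgroup G) : MonoidAlgebra ℤ G := ∑ i, S (sf (N i))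

theorem sum_coeff' {κ : Type} (s : Finset κ) (f : κ → MonoidAlgebra ℤ G) (g : G) :
    (∑ i ∈ s, f i).coeff g = ∑ i ∈ s, (f i).coeff g := by
  rw [MonoidAlgebra.coeff_sum, Finsupp.finsetSum_apply]

theorem T_coeff (g : G) : (T N).coeff g = ∑ i, (if g ∈ N i then (1 : ℤ) else 0) := by
  unfold T
  rw [sum_coeff']
  refine Finset.sum_congr rfl (fun i _ => ?_)
  rw [S_coeff]
  simp only [mem_sf]

theorem one_coeff' (g : G) : (1 : MonoidAlgebra ℤ G).coeff g = if g = 1 then 1 else 0 := by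
  rw [MonoidAlgebra.one_def, MonoidAlgebra.coeff_single, Finsupp.single_apply]
  simp only [eq_comm]

theorem Hy.vZ (H : Hy G k v ι N D) : (v : ℤ) = k ^ 2 - k + 1 := by
  have := H.hv
  zify at this
  linarith

theorem Hy.vA (H : Hy G k v ι N D) : (v : MonoidAlgebra ℤ G) = (k : MonoidAlgebra ℤ G) ^ 2 - k + 1 := by
  have := congrArg (Int.cast : ℤ → MonoidAlgebra ℤ G) H.vZ
  push_cast at this
  exact this

theorem Hy.GG (H : Hy G k v ι N D) : Ga G * Ga G = (v : MonoidAlgebra ℤ G) ^ 2 * Ga G := by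
  have := S_mul_Ga (G := G) univ
  rw [Finset.card_univ, H.hG] at this
  push_cast at this
  exact this

theorem Hy.NG (H : Hy G k v ι N D) (i : ι) : S (sf (N i)) * Ga G = (v : MonoidAlgebra ℤ G) * Ga G := by
  rw [S_mul_Ga, card_sf, H.hN]

theorem Hy.NN (H : Hy G k v ι N D) (i : ι) : S (sf (N i)) * S (sf (N i)) = (v : MonoidAlgebra ℤ G) * S (sf (N i)) := by
  rw [S_sf_sq, H.hN]

theorem Hy.NM (H : Hy G k v ι N D) (i j : ι) (hij : i ≠ j) : S (sf (N i)) * S (sf (N j)) = Ga G := by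
  apply S_sf_mul _ _ (H.hNN i j hij)
  rw [H.hN, H.hN, H.hG, pow_two]

theorem Hy.TG (H : Hy G k v ι N D) : T N * Ga G = 2 * k * v * Ga G := by
  unfold T
  rw [Finset.sum_mul, Finset.sum_congr rfl (fun i _ => H.NG i), Finset.sum_const, Finset.card_univ, H.hι,
    nsmul_eq_mul]
  push_cast
  ring

theorem Hy.TN (H : Hy G k v ι N D) (i : ι) : T N * S (sf (N i)) = v * S (sf (N i)) + (2 * k - 1) * Ga G := by
  unfold T
  rw [Finset.sum_mul, ← Finset.add_sum_erase univ _ (mem_univ i), H.NN]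
  congr 1
  rw [Finset.sum_congr rfl (g := fun _ => Ga G)]
  · rw [Finset.sum_const, Finset.card_erase_of_mem (mem_univ i), Finset.card_univ, H.hι, nsmul_eq_mul,
      Nat.cast_sub (by have := H.hk; omega)]
    push_cast
    ring
  · intro j hj
    exact H.NM j i (Finset.ne_of_mem_erase hj)

theorem Hy.TT (H : Hy G k v ι N D) : T N * T N = v * T N + 2 * k * (2 * k - 1) * Ga G := by
  have : T N * T N = ∑ i, T N * S (sf (N i)) := by
    conv_lhs => rw [show T N * T N = T N * ∑ i, S (sf (N i)) from rfl]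
    rw [Finset.mul_sum]
  rw [this, Finset.sum_congr rfl (fun i _ => H.TN i), Finset.sum_add_distrib, ← Finset.mul_sum,
    Finset.sum_const, Finset.card_univ, H.hι, nsmul_eq_mul]
  unfold T
  push_cast
  ring

theorem Hy.DG (H : Hy G k v ι N D) : S D * Ga G = ((k : MonoidAlgebra ℤ G) - 1) ^ 2 * Ga G := by
  rw [S_mul_Ga]
  have := congrArg (Int.cast : ℤ → MonoidAlgebra ℤ G) H.hD
  push_cast at this
  rw [this]

theorem Hy.DD (H : Hy G k v ι N D) : S D * st ℤ (S D) = (k : MonoidAlgebra ℤ G) ^ 2 + Ga G - T N := by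
  ext g
  rw [S_st_coeff, H.hR]
  have e1 : ((k : MonoidAlgebra ℤ G) ^ 2 + Ga G - T N).coeff g =
      ((k : MonoidAlgebra ℤ G) ^ 2).coeff g + (Ga G).coeff g - (T N).coeff g := by
    simp
  have e2 : ((k : MonoidAlgebra ℤ G) ^ 2).coeff g = if g = 1 then (k : ℤ) ^ 2 else 0 := by
    have : (k : MonoidAlgebra ℤ G) ^ 2 = ((k ^ 2 : ℕ) : MonoidAlgebra ℤ G) * 1 := by push_cast; ring
    rw [this, natCast_coeff, one_coeff']
    split_ifs
    · push_cast; ring
    · ring
  rw [e1, e2, S_coeff, T_coeff, if_pos (mem_univ g)]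

theorem st_N (i : ι) : st ℤ (S (sf (N i))) = S (sf (N i)) := by
  apply st_S_of_inv
  intro g
  rw [mem_sf, mem_sf, inv_mem_iff]

theorem st_Ga : st ℤ (Ga G) = Ga G := by
  apply st_S_of_inv
  intro g
  simp

theorem st_T : st ℤ (T N) = T N := by
  unfold T
  rw [map_sum]
  exact Finset.sum_congr rfl (fun i _ => st_N i)

/-- the equation for the projections -/
theorem Hy.YY (H : Hy G k v ι N D) (i : ι) : (S (sf (N i)) * S D) * st ℤ (S (sf (N i)) * S D) =
    ((k : MonoidAlgebra ℤ G) - 1) * (v * (S (sf (N i)) + (k - 2) * Ga G)) := by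
  rw [map_mul, st_N]
  have h1 := H.NN i
  have h2 := H.TN i
  have h3 := H.NG i
  have h4 := H.DD
  have h5 := H.vA
  have e : S (sf (N i)) * S D * (S (sf (N i)) * st ℤ (S D)) =
      (S (sf (N i)) * S (sf (N i))) * (S D * st ℤ (S D)) := by ring
  rw [e, h1, h4]
  have e2 : (v : MonoidAlgebra ℤ G) * S (sf (N i)) * ((k : MonoidAlgebra ℤ G) ^ 2 + Ga G - T N) =
      v * (k ^ 2 * S (sf (N i)) + S (sf (N i)) * Ga G - T N * S (sf (N i))) := by ring
  rw [e2, h2, h3, h5]
  ring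

/-- the projection to the characters which are not trivial on any of the subgroups -/
noncomputable def II (N : ι → Subgroup G) (k v : ℕ) : MonoidAlgebra ℤ G :=
  (v : MonoidAlgebra ℤ G) ^ 2 - v * T N + (2 * k - 1) * Ga G

theorem Hy.IG (H : Hy G k v ι N D) : II N k v * Ga G = 0 := by
  unfold II
  linear_combination (-v : MonoidAlgebra ℤ G) * H.TG + (2 * k - 1 : MonoidAlgebra ℤ G) * H.GG

theorem Hy.IT (H : Hy G k v ι N D) : II N k v * T N = 0 := by
  unfold II
  linear_combination (-v : MonoidAlgebra ℤ G) * H.TT + (2 * k - 1 : MonoidAlgebra ℤ G) * H.TG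

theorem Hy.stI : st ℤ (II N k v) = II N k v := by
  unfold II
  simp only [map_add, map_sub, map_mul, map_pow, map_natCast, map_ofNat, map_one, st_T, st_Ga]

theorem Hy.XX (H : Hy G k v ι N D) : (S D * II N k v) * st ℤ (S D * II N k v) =
    (k : MonoidAlgebra ℤ G) ^ 2 * (II N k v * II N k v) := by
  rw [map_mul, Hy.stI]
  linear_combination (II N k v * II N k v) * H.DD + II N k v * H.IG - II N k v * H.IT

/-- the number of the subgroups `N i` whose coset of `g` meets `D` -/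
noncomputable def ff (N : ι → Subgroup G) (D : Finset G) (g : G) : ℤ := (T N * S D).coeff g

theorem Hy.X_coeff (H : Hy G k v ι N D) (g : G) : (S D * II N k v).coeff g =
    (v : ℤ) ^ 2 * (if g ∈ D then 1 else 0) - v * ff N D g + (2 * k - 1) * ((k : ℤ) - 1) ^ 2 := by
  have e : S D * II N k v = ((v ^ 2 : ℕ) : MonoidAlgebra ℤ G) * S D - (v : MonoidAlgebra ℤ G) * (T N * S D) +
      (((2 * k - 1) * ((k : ℤ) - 1) ^ 2 : ℤ) : MonoidAlgebra ℤ G) * Ga G := by
    unfold II
    push_cast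
    linear_combination (2 * k - 1 : MonoidAlgebra ℤ G) * H.DG
  rw [e]
  have e1 : ∀ A B C : MonoidAlgebra ℤ G, (A - B + C).coeff g = A.coeff g - B.coeff g + C.coeff g := by
    intro A B C
    simp
  rw [e1, natCast_coeff, natCast_coeff, intCast_coeff, S_coeff, S_coeff, if_pos (mem_univ g)]
  unfold ff
  push_cast
  ring

theorem Hy.sum_ff (H : Hy G k v ι N D) : ∑ g, ff N D g = 2 * k * v * ((k : ℤ) - 1) ^ 2 := by
  have h1 := mul_Ga_coeff (T N * S D) (1 : G)
  have h2 : T N * S D * Ga G = ((2 * k * v * ((k : ℤ) - 1) ^ 2 : ℤ) : MonoidAlgebra ℤ G) * Ga G := by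
    push_cast
    linear_combination (T N) * H.DG + ((k : MonoidAlgebra ℤ G) - 1) ^ 2 * H.TG
  rw [h2, intCast_coeff, S_coeff, if_pos (mem_univ _), mul_one] at h1
  exact h1.symm

theorem T_coeff_one : (T N).coeff 1 = Fintype.card ι := by
  rw [T_coeff]
  simp [Subgroup.one_mem]

theorem Hy.sum_ff_sq (H : Hy G k v ι N D) : ∑ g, ff N D g ^ 2 =
    2 * k * v * ((k : ℤ) - 1) ^ 2 + 2 * k * (2 * k - 1) * ((k : ℤ) - 1) ^ 4 := by
  have h1 := mul_st_coeff_one (T N * S D)
  have h2 : (T N * S D) * st ℤ (T N * S D) =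
      (((v : ℤ) * (k - 1) : ℤ) : MonoidAlgebra ℤ G) * T N +
      ((2 * k * (v : ℤ) ^ 2 - 2 * k * (2 * k - 1) * v + 2 * k * (2 * k - 1) * ((k : ℤ) - 1) ^ 4 : ℤ) :
        MonoidAlgebra ℤ G) * Ga G := by
    rw [map_mul, st_T]
    have e : T N * S D * (T N * st ℤ (S D)) = (T N * T N) * (S D * st ℤ (S D)) := by ring
    rw [e, H.DD, H.TT]
    have h5 := H.vA
    push_cast
    have h3 := H.TT
    have h4 := H.TG
    have h6 := H.GG
    have : (v * T N + 2 * k * (2 * k - 1) * Ga G) * ((k : MonoidAlgebra ℤ G) ^ 2 + Ga G - T N) =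
        v * k ^ 2 * T N + v * (2 * k * v * Ga G) - v * (v * T N + 2 * k * (2 * k - 1) * Ga G) +
        2 * k * (2 * k - 1) * (k ^ 2 * Ga G + v ^ 2 * Ga G - 2 * k * v * Ga G) := by
      linear_combination ((v : MonoidAlgebra ℤ G) - 2 * k * (2 * k - 1)) * h4 - (v : MonoidAlgebra ℤ G) * h3 +
        (2 * k * (2 * k - 1) : MonoidAlgebra ℤ G) * h6
    rw [this, h5]
    ring
  have e1 : ∀ A B : MonoidAlgebra ℤ G, (A + B).coeff (1 : G) = A.coeff 1 + B.coeff 1 := by
    intro A B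
    simp
  rw [h2, e1, intCast_coeff, intCast_coeff, S_coeff, if_pos (mem_univ _), T_coeff_one, H.hι] at h1
  unfold ff
  rw [← h1, H.vZ]
  push_cast
  ring

end

end Pool.Agent.Q166.QR
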