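import Mathlib

/-!
# Quasiregular groups of type (h): self-conjugacy

Let `G` be a finite commutative group and `q` a prime with `g ^ (q ^ j) = g⁻¹` for all `g`. If `X` in the integral group
ring satisfies `q ^ (2 a) ∣ X * X⁻` then `q ^ a ∣ X`.
-/

set_option autoImplicit false
set_option linter.all false

open Finset
open scoped Classical

namespace Pool.Agent.Q166.QR

variable {G : Type} [CommGroup G]

/-- the inversion on the group ring -/
noncomputable def st (R : Type) [CommRing R] : MonoidAlgebra R G →+* MonoidAlgebra R G :=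
  MonoidAlgebra.mapDomainRingHom R (invMonoidHom : G →* G)

theorem st_single (R : Type) [CommRing R] (g : G) (a : R) :
    st R (MonoidAlgebra.single g a) = MonoidAlgebra.single g⁻¹ a := by
  unfold st
  simp

theorem st_st (R : Type) [CommRing R] (X : MonoidAlgebra R G) : st R (st R X) = X := by
  have : (st R).comp (st R) = RingHom.id (MonoidAlgebra R G) := by
    apply MonoidAlgebra.ringHom_ext
    · intro b
      simp [st_single]
    · intro a
      simp [st_single]
  exact RingHom.congr_fun this X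

theorem st_coeff (R : Type) [CommRing R] (X : MonoidAlgebra R G) (g : G) :
    (st R X).coeff g = X.coeff g⁻¹ := by
  induction X using MonoidAlgebra.induction_linear with
  | zero => simp
  | add x y hx hy => simp [hx, hy]
  | single a b =>
    rw [st_single]
    by_cases h : a⁻¹ = g
    · subst h
      simp
    · have h' : a ≠ g⁻¹ := fun h2 => h (by rw [h2, inv_inv])
      simp [MonoidAlgebra.coeff_single, Finsupp.single_apply, h, h']

/-- the Frobenius map of the group ring modulo `q` -/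
theorem pow_eq_st (q : ℕ) [Fact q.Prime] (j : ℕ) (hj : ∀ g : G, g ^ (q ^ j) = g⁻¹)
    (X : MonoidAlgebra (ZMod q) G) : X ^ (q ^ j) = st (ZMod q) X := by
  have : CharP (MonoidAlgebra (ZMod q) G) q :=
    charP_of_injective_algebraMap (algebraMap (ZMod q) (MonoidAlgebra (ZMod q) G)).injective q
  have : ExpChar (MonoidAlgebra (ZMod q) G) q := ExpChar.prime (Fact.out)
  have : iterateFrobenius (MonoidAlgebra (ZMod q) G) q j = st (ZMod q) := by
    apply MonoidAlgebra.ringHom_ext
    · intro b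
      rw [iterateFrobenius_def, MonoidAlgebra.single_pow, ZMod.pow_card_pow, st_single]
      simp
    · intro a
      rw [iterateFrobenius_def, MonoidAlgebra.single_pow, hj, st_single, one_pow]
  rw [← this, iterateFrobenius_def]

/-- a self-conjugate prime: the equation `X X⁻ = 0` modulo `q` has only the solution `0` -/
theorem selfconj (q : ℕ) [Fact q.Prime] (j : ℕ) (hj0 : 0 < j) (hj : ∀ g : G, g ^ (q ^ j) = g⁻¹)
    (X : MonoidAlgebra (ZMod q) G) (hX : X * st (ZMod q) X = 0) : X = 0 := by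
  have h1 : X ^ (q ^ j + 1) = 0 := by
    rw [pow_succ', pow_eq_st q j hj, hX]
  have h2 : X ^ (q ^ j * q ^ j) = X := by
    rw [pow_mul, pow_eq_st q j hj, pow_eq_st q j hj, st_st]
  have hq : 2 ≤ q ^ j := by
    have : 2 ≤ q := (Fact.out : q.Prime).two_le
    calc 2 ≤ q := this
      _ = q ^ 1 := (pow_one q).symm
      _ ≤ q ^ j := Nat.pow_le_pow_right (by omega) hj0
  have h3 : q ^ j + 1 ≤ q ^ j * q ^ j := by nlinarith
  rw [← h2]
  obtain ⟨c, hc⟩ := Nat.exists_eq_add_of_le h3
  rw [hc, pow_add, h1, zero_mul]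

/-- reduction modulo `q` -/
noncomputable def rd (G : Type) [CommGroup G] (q : ℕ) : MonoidAlgebra ℤ G →+* MonoidAlgebra (ZMod q) G :=
  MonoidAlgebra.mapRingHom G (Int.castRingHom (ZMod q))

theorem rd_coeff (q : ℕ) (X : MonoidAlgebra ℤ G) (g : G) : (rd G q X).coeff g = (X.coeff g : ZMod q) := by
  unfold rd
  rw [MonoidAlgebra.coeff_mapRingHom]
  rfl

theorem rd_st (q : ℕ) (X : MonoidAlgebra ℤ G) : rd G q (st ℤ X) = st (ZMod q) (rd G q X) := by
  ext g
  rw [rd_coeff, st_coeff, st_coeff, rd_coeff]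

theorem smul_coeff (m : ℤ) (X : MonoidAlgebra ℤ G) (g : G) : (m • X).coeff g = m * X.coeff g := by
  rw [MonoidAlgebra.coeff_smul]
  simp

theorem exists_smul [Fintype G] (m : ℤ) (X : MonoidAlgebra ℤ G) (h : ∀ g, m ∣ X.coeff g) :
    ∃ Y : MonoidAlgebra ℤ G, X = m • Y := by
  choose y hy using h
  refine ⟨∑ g, MonoidAlgebra.single g (y g), ?_⟩
  ext g
  rw [smul_coeff, hy g]
  congr 1
  simp [MonoidAlgebra.coeff_sum, Finsupp.finsetSum_apply, Finsupp.single_apply]

theorem smul_cancel (m : ℤ) (hm : m ≠ 0) (X Y : MonoidAlgebra ℤ G) (h : m • X = m • Y) : X = Y := by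
  ext g
  have := congrArg (fun Z : MonoidAlgebra ℤ G => Z.coeff g) h
  simp only [smul_coeff] at this
  exact mul_left_cancel₀ hm this

theorem st_smul (m : ℤ) (X : MonoidAlgebra ℤ G) : st ℤ (m • X) = m • st ℤ X := map_zsmul _ _ _

/-- the integral version -/
theorem selfconj_int [Fintype G] (q : ℕ) (hq : q.Prime) (j : ℕ) (hj0 : 0 < j) (hj : ∀ g : G, g ^ (q ^ j) = g⁻¹)
    (a : ℕ) : ∀ X : MonoidAlgebra ℤ G, (∃ Z : MonoidAlgebra ℤ G, X * st ℤ X = ((q : ℤ) ^ (2 * a)) • Z) →
      ∀ g, (q : ℤ) ^ a ∣ X.coeff g := by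
  have : Fact q.Prime := ⟨hq⟩
  have hq0 : (q : ℤ) ≠ 0 := by exact_mod_cast hq.ne_zero
  induction a with
  | zero => intro X _ g; simp
  | succ a ih =>
    rintro X ⟨Z, hZ⟩ g
    have h1 : rd G q X = 0 := by
      apply selfconj q j hj0 hj
      rw [← rd_st, ← map_mul, hZ]
      ext u
      rw [rd_coeff, smul_coeff]
      have : ((q : ℤ) ^ (2 * (a + 1)) : ℤ) * Z.coeff u = (q : ℤ) * ((q : ℤ) ^ (2 * a + 1) * Z.coeff u) := by ring
      rw [this]
      push_cast
      simp
    have h2 : ∀ u, (q : ℤ) ∣ X.coeff u := by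
      intro u
      have := rd_coeff q X u
      rw [h1] at this
      exact (ZMod.intCast_zmod_eq_zero_iff_dvd _ _).mp (by simpa using this.symm)
    obtain ⟨Y, hY⟩ := exists_smul (q : ℤ) X h2
    have h3 : Y * st ℤ Y = ((q : ℤ) ^ (2 * a)) • Z := by
      apply smul_cancel ((q : ℤ) ^ 2) (pow_ne_zero _ hq0)
      rw [smul_smul, ← pow_add, show 2 + 2 * a = 2 * (a + 1) by ring, ← hZ, hY, st_smul, smul_mul_smul_comm,
        ← pow_two]
    have h4 := ih Y ⟨Z, h3⟩ g
    rw [hY, smul_coeff, pow_succ']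
    exact mul_dvd_mul_left _ h4

end Pool.Agent.Q166.QR
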