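import Pool.Agent.Q166.QR.Alg

/-!
# Quasiregular groups of type (h): the contradictions for self-conjugate primes
-/

set_option autoImplicit false
set_option linter.all false

open Finset
open scoped Classical

namespace Pool.Agent.Q166.QR

section

variable {G : Type} [CommGroup G] [Fintype G]

theorem selfconj_int1 (q : ℕ) (hq : q.Prime) (j : ℕ) (hj0 : 0 < j) (hj : ∀ g : G, g ^ (q ^ j) = g⁻¹)
    (X Z : MonoidAlgebra ℤ G) (hZ : X * st ℤ X = (q : MonoidAlgebra ℤ G) * Z) (g : G) :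
    (q : ℤ) ∣ X.coeff g := by
  have : Fact q.Prime := ⟨hq⟩
  have h1 : rd G q X = 0 := by
    apply selfconj q j hj0 hj
    rw [← rd_st, ← map_mul, hZ]
    ext u
    rw [rd_coeff, natCast_coeff]
    push_cast
    simp
  have := rd_coeff q X g
  rw [h1] at this
  exact (ZMod.intCast_zmod_eq_zero_iff_dvd _ _).mp (by simpa using this.symm)

variable {k v : ℕ} {ι : Type} [Fintype ι] {N : ι → Subgroup G} {D : Finset G}

theorem NS_coeff (M : Subgroup G) (D : Finset G) (g : G) :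
    (S (sf M) * S D).coeff g = ((D.filter fun y => g * y⁻¹ ∈ M).card : ℤ) := by
  rw [coeff_mul_S]
  simp only [S_coeff, mem_sf]
  rw [← Finset.sum_filter, Finset.sum_const, nsmul_eq_mul, mul_one]

theorem Hy.exp (H : Hy G k v ι N D) (g : G) : g ^ v = 1 := by
  have hk := H.hk
  obtain ⟨i, j, hij⟩ := Fintype.exists_pair_of_one_lt_card (by rw [H.hι]; omega : 1 < Fintype.card ι)
  have h1 := congrArg (fun X : MonoidAlgebra ℤ G => X.coeff g) (H.NM i j hij)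
  rw [NS_coeff, S_coeff, if_pos (mem_univ g)] at h1
  have h2 : ((sf (N j)).filter fun y => g * y⁻¹ ∈ N i).card = 1 := by exact_mod_cast h1
  obtain ⟨b, hb⟩ := Finset.card_pos.mp (by rw [h2]; norm_num)
  rw [Finset.mem_filter, mem_sf] at hb
  have hp : ∀ (i : ι) (a : G), a ∈ N i → a ^ v = 1 := by
    intro i a ha
    have := pow_card_eq_one' (x := (⟨a, ha⟩ : N i))
    rw [H.hN] at this
    exact congrArg Subtype.val this
  have h3 : g = (g * b⁻¹) * b := by simp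
  rw [h3, mul_pow, hp i _ hb.2, hp j b hb.1, one_mul]

theorem Hy.inv (H : Hy G k v ι N D) (m : ℕ) (hm : v ∣ m + 1) (g : G) : g ^ m = g⁻¹ := by
  obtain ⟨c, hc⟩ := hm
  have : g ^ (m + 1) = 1 := by rw [hc, pow_mul, H.exp, one_pow]
  rw [pow_succ] at this
  exact eq_inv_of_mul_eq_one_left this

theorem Hy.le_one (H : Hy G k v ι N D) (i : ι) (g : G) : (S (sf (N i)) * S D).coeff g ≤ 1 := by
  rw [NS_coeff]
  norm_cast
  rw [Finset.card_le_one]
  intro a ha b hb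
  rw [Finset.mem_filter] at ha hb
  by_contra hab
  have h1 := H.hR (a * b⁻¹)
  have h2 : a * b⁻¹ ≠ 1 := fun h => hab (mul_inv_eq_one.mp h)
  have h3 : a * b⁻¹ ∈ N i := by
    have := (N i).mul_mem ((N i).inv_mem ha.2) hb.2
    have e : (g * a⁻¹)⁻¹ * (g * b⁻¹) = a * b⁻¹ := by
      rw [mul_inv, inv_inv, mul_comm g⁻¹ a, mul_assoc, inv_mul_cancel_left]
    rwa [e] at this
  rw [if_neg h2] at h1
  have h4 : (1 : ℤ) ≤ ∑ i, (if a * b⁻¹ ∈ N i then (1 : ℤ) else 0) := by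
    have h5 := Finset.single_le_sum (f := fun i => if a * b⁻¹ ∈ N i then (1 : ℤ) else 0)
      (fun i _ => by split_ifs <;> norm_num) (mem_univ i)
    simp only [if_pos h3] at h5
    exact h5
  have h6 : 0 < (D.filter fun y => a * b⁻¹ * y ∈ D).card := by
    apply Finset.card_pos.mpr
    refine ⟨b, ?_⟩
    rw [Finset.mem_filter]
    exact ⟨hb.1, by simpa using ha.1⟩
  have h7 : (0 : ℤ) < ((D.filter fun y => a * b⁻¹ * y ∈ D).card : ℤ) := by exact_mod_cast h6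
  linarith

theorem Hy.nonneg (i : ι) (g : G) : 0 ≤ (S (sf (N i)) * S D).coeff g := by
  rw [NS_coeff]
  positivity

theorem Hy.eq_one (H : Hy G k v ι N D) (i : ι) (g : G) (hg : g ∈ D) : (S (sf (N i)) * S D).coeff g = 1 := by
  apply le_antisymm (H.le_one i g)
  rw [NS_coeff]
  have : 0 < (D.filter fun y => g * y⁻¹ ∈ N i).card := by
    apply Finset.card_pos.mpr
    refine ⟨g, ?_⟩
    rw [Finset.mem_filter]
    exact ⟨hg, by simpa using (N i).one_mem⟩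
  exact_mod_cast this

theorem ff_eq (g : G) : ff N D g = ∑ i, (S (sf (N i)) * S D).coeff g := by
  unfold ff T
  rw [Finset.sum_mul, sum_coeff']

theorem Hy.ff_le (H : Hy G k v ι N D) (g : G) : ff N D g ≤ 2 * k := by
  rw [ff_eq]
  calc ∑ i, (S (sf (N i)) * S D).coeff g ≤ ∑ i : ι, (1 : ℤ) := Finset.sum_le_sum (fun i _ => H.le_one i g)
    _ = 2 * k := by rw [Finset.sum_const, Finset.card_univ, H.hι]; simp

theorem Hy.ff_D (H : Hy G k v ι N D) (g : G) (hg : g ∈ D) : ff N D g = 2 * k := by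
  rw [ff_eq, Finset.sum_congr rfl (fun i _ => H.eq_one i g hg), Finset.sum_const, Finset.card_univ, H.hι]
  simp

theorem Hy.v_pos (H : Hy G k v ι N D) : 7 ≤ v := by
  have h1 := H.hv
  have h2 := H.hk
  nlinarith

theorem Hy.D_pos (H : Hy G k v ι N D) : ∃ g, g ∈ D := by
  have h1 := H.hD
  have h2 := H.hk
  have h3 : (3 : ℤ) ≤ k := by exact_mod_cast h2
  have h4 : (0 : ℤ) < D.card := by rw [h1]; nlinarith
  exact Finset.card_pos.mp (by exact_mod_cast h4)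

/-- a prime factor of `k - 1` -/
theorem Hy.false1 (H : Hy G k v ι N D) (q j : ℕ) (hq : q.Prime) (hj0 : 0 < j) (hvj : v ∣ q ^ j + 1)
    (hqk : (q : ℤ) ∣ k - 1) : False := by
  obtain ⟨g, hg⟩ := H.D_pos
  have hk := H.hk
  obtain ⟨i⟩ : Nonempty ι := Fintype.card_pos_iff.mp (by rw [H.hι]; omega)
  obtain ⟨m, hm⟩ := hqk
  have h1 := selfconj_int1 q hq j hj0 (H.inv _ hvj) (S (sf (N i)) * S D)
    ((m : MonoidAlgebra ℤ G) * (v * (S (sf (N i)) + (k - 2) * Ga G))) (by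
      rw [H.YY i]
      have h5 := congrArg (Int.cast : ℤ → MonoidAlgebra ℤ G) hm
      push_cast at h5
      rw [h5]
      ring) g
  rw [H.eq_one i g hg] at h1
  have h2 := Int.eq_one_of_dvd_one (by positivity) h1
  have h3 := hq.one_lt
  have : (q : ℤ) = 1 := h2
  have : q = 1 := by exact_mod_cast this
  omega

/-- a prime power dividing `k` -/
theorem Hy.false2 (H : Hy G k v ι N D) (q a j : ℕ) (hq : q.Prime) (hj0 : 0 < j) (hvj : v ∣ q ^ j + 1)
    (hqk : q ^ a ∣ k) (h3 : 3 ≤ q ^ a) : False := by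
  have hk := H.hk
  have hkZ : (3 : ℤ) ≤ k := by exact_mod_cast hk
  have hvZ := H.vZ
  obtain ⟨Q, hQ⟩ : ∃ Q : ℤ, Q = (q : ℤ) ^ a := ⟨_, rfl⟩
  have hQ3 : 3 ≤ Q := by rw [hQ]; exact_mod_cast h3
  obtain ⟨m, hm⟩ := hqk
  have hmZ : (k : ℤ) = Q * m := by rw [hQ]; exact_mod_cast hm
  have h1 : ∀ g, Q ∣ (S D * II N k v).coeff g := by
    intro g
    rw [hQ]
    apply selfconj_int q hq j hj0 (H.inv _ hvj) a
    refine ⟨(m ^ 2 : MonoidAlgebra ℤ G) * (II N k v * II N k v), ?_⟩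
    rw [H.XX, zsmul_eq_mul]
    have h5 := congrArg (Nat.cast : ℕ → MonoidAlgebra ℤ G) hm
    push_cast at h5
    rw [h5]
    push_cast
    ring
  have hvk : (v : ℤ) - 1 = Q * (m * (k - 1)) := by rw [hvZ]; linear_combination ((k : ℤ) - 1) * hmZ
  have h2 : ∀ g, g ∉ D → Q ∣ 2 * k - 1 - ff N D g := by
    intro g hg
    have h4 := h1 g
    rw [H.X_coeff, if_neg hg] at h4
    have e : 2 * (k : ℤ) - 1 - ff N D g = ((v : ℤ) ^ 2 * 0 - v * ff N D g + (2 * k - 1) * ((k : ℤ) - 1) ^ 2) +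
        Q * (m * (k - 1) * ff N D g + 2 * m - m * (2 * k ^ 2 - 5 * k + 4)) := by
      linear_combination (ff N D g) * hvk + (2 - (2 * (k : ℤ) ^ 2 - 5 * k + 4)) * hmZ
    rw [e]
    exact dvd_add h4 (dvd_mul_right _ _)
  have h5 : ∀ g, g ∉ D → 0 ≤ 2 * (k : ℤ) - 1 - ff N D g := by
    intro g hg
    by_contra hlt
    have h6 := H.ff_le g
    have h7 : 2 * (k : ℤ) - 1 - ff N D g = -1 := by linarith [Int.lt_iff_add_one_le.mp (not_le.mp hlt)]
    have h8 := h2 g hg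
    rw [h7] at h8
    have h9 : Q ∣ 1 := (dvd_neg).mp h8
    have := Int.le_of_dvd one_pos h9
    linarith
  have h6 : ∀ g, g ∉ D → 0 ≤ (2 * (k : ℤ) - 1 - ff N D g) ^ 2 - Q * (2 * (k : ℤ) - 1 - ff N D g) := by
    intro g hg
    obtain ⟨c, hc⟩ := h2 g hg
    have h7 := h5 g hg
    rw [hc] at h7 ⊢
    have h8 : 0 ≤ c := by
      by_contra h
      have : c ≤ -1 := by linarith [Int.lt_iff_add_one_le.mp (not_le.mp h)]
      nlinarith
    have h9 : 0 ≤ c * (c - 1) := by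
      rcases eq_or_lt_of_le h8 with h | h
      · rw [← h]; norm_num
      · have : 1 ≤ c := h
        nlinarith
    have e : (Q * c) ^ 2 - Q * (Q * c) = Q ^ 2 * (c * (c - 1)) := by ring
    rw [e]
    positivity
  have h7 : ∀ g, g ∈ D → (2 * (k : ℤ) - 1 - ff N D g) ^ 2 - Q * (2 * (k : ℤ) - 1 - ff N D g) = 1 + Q := by
    intro g hg
    rw [H.ff_D g hg]
    ring
  have h8 : ∑ g, ((2 * (k : ℤ) - 1 - ff N D g) ^ 2 - Q * (2 * (k : ℤ) - 1 - ff N D g)) ≥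
      ((k : ℤ) - 1) ^ 2 * (1 + Q) := by
    have h9 : ∑ g ∈ D, ((2 * (k : ℤ) - 1 - ff N D g) ^ 2 - Q * (2 * (k : ℤ) - 1 - ff N D g)) =
        ((k : ℤ) - 1) ^ 2 * (1 + Q) := by
      rw [Finset.sum_congr rfl h7, Finset.sum_const, nsmul_eq_mul, H.hD]
    rw [← h9]
    apply Finset.sum_le_sum_of_subset_of_nonneg (Finset.subset_univ D)
    intro g _ hg
    exact h6 g hg
  have h9 : ∑ g, ((2 * (k : ℤ) - 1 - ff N D g) ^ 2 - Q * (2 * (k : ℤ) - 1 - ff N D g)) =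
      (v : ℤ) ^ 2 * ((2 * (k : ℤ) - 1) ^ 2 - Q * (2 * k - 1)) - (2 * (2 * k - 1) - Q) * ∑ g, ff N D g +
      ∑ g, ff N D g ^ 2 := by
    have e : ∀ g, ((2 * (k : ℤ) - 1 - ff N D g) ^ 2 - Q * (2 * (k : ℤ) - 1 - ff N D g)) =
        ((2 * (k : ℤ) - 1) ^ 2 - Q * (2 * k - 1)) - (2 * (2 * k - 1) - Q) * ff N D g + ff N D g ^ 2 := by
      intro g; ring
    rw [Finset.sum_congr rfl (fun g _ => e g), Finset.sum_add_distrib, Finset.sum_sub_distrib,
      ← Finset.mul_sum, Finset.sum_const, Finset.card_univ, H.hG, nsmul_eq_mul]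
    push_cast
    ring
  rw [h9, H.sum_ff, H.sum_ff_sq, hvZ] at h8
  have h10 : ((k : ℤ) ^ 2 - k + 1) ^ 2 * ((2 * (k : ℤ) - 1) ^ 2 - Q * (2 * k - 1)) -
      (2 * (2 * k - 1) - Q) * (2 * k * ((k : ℤ) ^ 2 - k + 1) * ((k : ℤ) - 1) ^ 2) +
      (2 * k * ((k : ℤ) ^ 2 - k + 1) * ((k : ℤ) - 1) ^ 2 + 2 * k * (2 * k - 1) * ((k : ℤ) - 1) ^ 4) -
      ((k : ℤ) - 1) ^ 2 * (1 + Q) = (k : ℤ) ^ 3 * (3 * k - 2) - Q * k ^ 4 := by ring
  have h11 : (0 : ℤ) ≤ (k : ℤ) ^ 3 * (3 * k - 2) - Q * k ^ 4 := by linarith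
  have h12 : (0 : ℤ) < (k : ℤ) ^ 3 := by positivity
  have h13 : (k : ℤ) ^ 3 * (3 * k - 2) - Q * k ^ 4 = (k : ℤ) ^ 3 * ((3 - Q) * k - 2) := by ring
  rw [h13] at h11
  have h14 : (0 : ℤ) ≤ (3 - Q) * k - 2 := nonneg_of_mul_nonneg_right h11 h12
  nlinarith

end

end Pool.Agent.Q166.QR
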