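import Mathlib

/-!
# Quasiregular groups of type (h): fixed structures of normal subgroups
-/

set_option autoImplicit false
set_option linter.all false

open Finset Configuration
open scoped Classical

namespace Pool.Agent.Q166.QR

section plane

variable {P L : Type} [Membership P L] [ProjectivePlane P L]

theorem ln_eq {x y : P} {l m : L} (hxy : x ≠ y) (h1 : x ∈ l) (h2 : y ∈ l) (h3 : x ∈ m) (h4 : y ∈ m) : l = m :=
  (Nondegenerate.eq_or_eq h1 h2 h3 h4).resolve_left hxy

theorem pt_eq {x y : P} {l m : L} (hlm : l ≠ m) (h1 : x ∈ l) (h2 : x ∈ m) (h3 : y ∈ l) (h4 : y ∈ m) : x = y :=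
  (Nondegenerate.eq_or_eq h1 h3 h2 h4).resolve_right hlm

theorem exists_line {x y : P} (h : x ≠ y) : ∃ l : L, x ∈ l ∧ y ∈ l := ⟨HasLines.mkLine h, HasLines.mkLine_ax h⟩

theorem exists_point {l m : L} (h : l ≠ m) : ∃ x : P, x ∈ l ∧ x ∈ m := ⟨HasPoints.mkPoint h, HasPoints.mkPoint_ax h⟩

theorem finite_lines (P L : Type) [Membership P L] [ProjectivePlane P L] [Finite P] : Finite L := by
  apply Finite.of_injective (fun l : L => {x : P | x ∈ l})
  intro l m h
  by_contra hlm
  obtain ⟨x, hx1, hx2⟩ := exists_point (P := P) hlm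
  obtain ⟨h', hh⟩ := Nondegenerate.exists_line (P := P) (L := L) x
  have hne : h' ≠ l := fun e => hh (e ▸ hx1)
  obtain ⟨y, hy1, hy2⟩ := exists_point (P := P) hne
  have hy3 : y ∈ m := by
    have : y ∈ {x : P | x ∈ l} := hy2
    simp only at h
    rw [h] at this
    exact this
  have hxy : x ≠ y := fun e => hh (e ▸ hy1)
  exact hlm (ln_eq hxy hx1 hy2 hx2 hy3)

variable [Fintype P] [Fintype L]

theorem card_lines_through (x : P) : (univ.filter fun l : L => x ∈ l).card = ProjectivePlane.order P L + 1 := by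
  have := ProjectivePlane.lineCount_eq (P := P) (L := L) x
  unfold lineCount at this
  rw [Nat.card_eq_fintype_card, Fintype.card_subtype] at this
  exact this

theorem card_points_on (l : L) : (univ.filter fun x : P => x ∈ l).card = ProjectivePlane.order P L + 1 := by
  have := ProjectivePlane.pointCount_eq (P := P) (L := L) l
  unfold pointCount at this
  rw [Nat.card_eq_fintype_card, Fintype.card_subtype] at this
  exact this

end plane

/-- the hypotheses on the group -/
structure PG (P L G : Type) [Membership P L] [ProjectivePlane P L] [Fintype P] [Fintype L] [Group G] [Fintype G]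
    [MulAction G P] [MulAction G L] (k v : ℕ) : Prop where
  ord : ProjectivePlane.order P L = k ^ 2
  faith : ∀ g : G, (∀ x : P, g • x = x) → g = 1
  inc : ∀ (g : G) (x : P) (l : L), x ∈ l ↔ g • x ∈ g • l
  qp : ∀ (g : G) (p q : P), q ∈ MulAction.orbit G p → g • p = p → g • q = q
  hk : 3 ≤ k
  hv : v + k = k ^ 2 + 1
  hG : Fintype.card G = v ^ 2
  nfp : ¬ ∃ p : P, ∀ g : G, g • p = p
  nfl : ¬ ∃ l : L, ∀ g : G, g • l = l

section group

variable {P L G : Type} [Membership P L] [ProjectivePlane P L] [Fintype P] [Fintype L] [Group G] [Fintype G]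
  [MulAction G P] [MulAction G L] {k v : ℕ}

/-- a line with two fixed points is fixed -/
theorem PG.fix_line (H : PG P L G k v) (g : G) (x y : P) (l : L) (hxy : x ≠ y) (hx : g • x = x) (hy : g • y = y)
    (hxl : x ∈ l) (hyl : y ∈ l) : g • l = l := by
  have h1 : x ∈ g • l := by have := (H.inc g x l).mp hxl; rwa [hx] at this
  have h2 : y ∈ g • l := by have := (H.inc g y l).mp hyl; rwa [hy] at this
  exact ln_eq hxy h1 h2 hxl hyl

/-- the point of intersection of two fixed lines is fixed -/
theorem PG.fix_point (H : PG P L G k v) (g : G) (x : P) (l m : L) (hlm : l ≠ m) (hl : g • l = l) (hm : g • m = m)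
    (hxl : x ∈ l) (hxm : x ∈ m) : g • x = x := by
  have h1 : g • x ∈ l := by have := (H.inc g x l).mp hxl; rwa [hl] at this
  have h2 : g • x ∈ m := by have := (H.inc g x m).mp hxm; rwa [hm] at this
  exact pt_eq hlm h1 h2 hxl hxm

/-- the fixed points -/
noncomputable def FP (P : Type) [Fintype P] [MulAction G P] (N : Subgroup G) : Finset P :=
  univ.filter fun x : P => ∀ n ∈ N, n • x = x

/-- the fixed lines -/
noncomputable def FL (L : Type) [Fintype L] [MulAction G L] (N : Subgroup G) : Finset L :=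
  univ.filter fun l : L => ∀ n ∈ N, n • l = l

theorem mem_FP (N : Subgroup G) (x : P) : x ∈ FP P N ↔ ∀ n ∈ N, n • x = x := by simp [FP]

theorem mem_FL (N : Subgroup G) (l : L) : l ∈ FL L N ↔ ∀ n ∈ N, n • l = l := by simp [FL]

theorem PG.join_mem (H : PG P L G k v) (N : Subgroup G) (x y : P) (l : L) (hxy : x ≠ y) (hx : x ∈ FP P N)
    (hy : y ∈ FP P N) (hxl : x ∈ l) (hyl : y ∈ l) : l ∈ FL L N := by
  rw [mem_FP] at hx hy
  rw [mem_FL]
  exact fun n hn => H.fix_line n x y l hxy (hx n hn) (hy n hn) hxl hyl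

theorem PG.meet_mem (H : PG P L G k v) (N : Subgroup G) (x : P) (l m : L) (hlm : l ≠ m) (hl : l ∈ FL L N)
    (hm : m ∈ FL L N) (hxl : x ∈ l) (hxm : x ∈ m) : x ∈ FP P N := by
  rw [mem_FL] at hl hm
  rw [mem_FP]
  exact fun n hn => H.fix_point n x l m hlm (hl n hn) (hm n hn) hxl hxm

theorem smul_FP (N : Subgroup G) (hN : N.Normal) (g : G) (x : P) (hx : x ∈ FP P N) : g • x ∈ FP P N := by
  rw [mem_FP] at hx ⊢
  intro n hn
  have h1 : g⁻¹ * n * g ∈ N := by
    have := hN.conj_mem n hn g⁻¹
    simpa using this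
  have h2 := hx _ h1
  have h3 : g • ((g⁻¹ * n * g) • x) = n • (g • x) := by
    rw [smul_smul, smul_smul]
    congr 1
    group
  rw [← h3, h2]

theorem smul_FL (N : Subgroup G) (hN : N.Normal) (g : G) (x : L) (hx : x ∈ FL L N) : g • x ∈ FL L N := by
  rw [mem_FL] at hx ⊢
  intro n hn
  have h1 : g⁻¹ * n * g ∈ N := by
    have := hN.conj_mem n hn g⁻¹
    simpa using this
  have h2 := hx _ h1
  have h3 : g • ((g⁻¹ * n * g) • x) = n • (g • x) := by
    rw [smul_smul, smul_smul]
    congr 1
    group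
  rw [← h3, h2]

/-- fixed points on a line -/
noncomputable def fc (N : Subgroup G) (l : L) : ℕ := ((FP P N).filter fun x => x ∈ l).card

/-- fixed lines through a point -/
noncomputable def tc (L : Type) [Membership P L] [Fintype L] [MulAction G L] (N : Subgroup G) (x : P) : ℕ :=
  ((FL L N).filter fun l => x ∈ l).card

theorem PG.fc_eq_tc (H : PG P L G k v) (N : Subgroup G) (x : P) (l : L) (hx : x ∈ FP P N) (hl : l ∈ FL L N)
    (hxl : x ∉ l) : fc (P := P) N l = tc L N x := by
  unfold fc tc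
  have hex : ∀ y : P, y ∈ l → ∃ m : L, x ∈ m ∧ y ∈ m := by
    intro y hy
    exact exists_line (fun e => hxl (e ▸ hy))
  apply Finset.card_bij (fun y hy => (hex y (Finset.mem_filter.mp hy).2).choose)
  · intro y hy
    have h1 := (hex y (Finset.mem_filter.mp hy).2).choose_spec
    rw [Finset.mem_filter] at hy ⊢
    exact ⟨H.join_mem N x y _ (fun e => hxl (e ▸ hy.2)) hx hy.1 h1.1 h1.2, h1.1⟩
  · intro y hy z hz h
    have h1 := (hex y (Finset.mem_filter.mp hy).2).choose_spec
    have h2 := (hex z (Finset.mem_filter.mp hz).2).choose_spec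
    rw [← h] at h2
    rw [Finset.mem_filter] at hy hz
    by_contra hyz
    have h3 := ln_eq hyz h1.2 h2.2 hy.2 hz.2
    rw [h3] at h1
    exact hxl h1.1
  · intro m hm
    rw [Finset.mem_filter] at hm
    have hne : l ≠ m := fun e => hxl (e ▸ hm.2)
    obtain ⟨y, hy1, hy2⟩ := exists_point (P := P) hne
    refine ⟨y, ?_, ?_⟩
    · rw [Finset.mem_filter]
      exact ⟨H.meet_mem N y l m hne hl hm.1 hy1 hy2, hy1⟩
    · have hy : y ∈ (FP P N).filter fun x => x ∈ l := by
        rw [Finset.mem_filter]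
        exact ⟨H.meet_mem N y l m hne hl hm.1 hy1 hy2, hy1⟩
      have h1 := (hex y hy1).choose_spec
      have hxy : x ≠ y := fun e => hxl (e ▸ hy1)
      exact ln_eq hxy h1.1 h1.2 hm.2 hy2

theorem PG.tc_smul (H : PG P L G k v) (N : Subgroup G) (hN : N.Normal) (g : G) (x : P) :
    tc L N (g • x) = tc L N x := by
  unfold tc
  symm
  apply Finset.card_bij (fun (l : L) _ => g • l)
  · intro l hl
    rw [Finset.mem_filter] at hl ⊢
    exact ⟨smul_FL N hN g l hl.1, (H.inc g x l).mp hl.2⟩
  · intro l _ m _ h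
    exact smul_left_cancel g h
  · intro m hm
    rw [Finset.mem_filter] at hm
    refine ⟨g⁻¹ • m, ?_, smul_inv_smul g m⟩
    rw [Finset.mem_filter]
    refine ⟨smul_FL N hN g⁻¹ m hm.1, ?_⟩
    rw [H.inc g, smul_inv_smul]
    exact hm.2

/-- no line contains an orbit -/
theorem PG.not_on (H : PG P L G k v) (x : P) (l : L) : ∃ g : G, g • x ∉ l := by
  by_contra hcon
  push Not at hcon
  obtain ⟨h, hh⟩ : ∃ h : G, h • x ≠ x := by
    by_contra h1
    push Not at h1
    exact H.nfp ⟨x, h1⟩
  apply H.nfl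
  refine ⟨l, fun g => ?_⟩
  have h1 : x ∈ g • l := by
    have := (H.inc g (g⁻¹ • x) l).mp (hcon g⁻¹)
    rwa [smul_inv_smul] at this
  have h2 : h • x ∈ g • l := by
    have := (H.inc g ((g⁻¹ * h) • x) l).mp (hcon _)
    rwa [mul_smul, smul_inv_smul] at this
  have h3 : x ∈ l := by have := hcon 1; rwa [one_smul] at this
  exact ln_eq hh.symm h1 h2 h3 (hcon h)

theorem PG.exists_ne (H : PG P L G k v) (x y : P) : ∃ g : G, g • x ≠ y := by
  by_contra hcon
  push Not at hcon
  apply H.nfp
  have h1 : x = y := by have := hcon 1; rwa [one_smul] at this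
  exact ⟨x, fun g => by rw [hcon g, h1]⟩

theorem PG.fc_const (H : PG P L G k v) (N : Subgroup G) (hN : N.Normal) (x : P) (hx : x ∈ FP P N) (l : L)
    (hl : l ∈ FL L N) : fc (P := P) N l = tc L N x := by
  obtain ⟨g, hg⟩ := H.not_on x l
  rw [H.fc_eq_tc N (g • x) l (smul_FP N hN g x hx) hl hg, H.tc_smul N hN]

/-- the number of fixed points -/
theorem PG.card_FP (H : PG P L G k v) (N : Subgroup G) (hN : N.Normal) (x : P) (hx : x ∈ FP P N) :
    (FP P N).card = 1 + tc L N x * (tc L N x - 1) := by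
  rw [← Finset.card_erase_add_one hx, add_comm]
  congr 1
  have h1 : (FP P N).erase x = ((FL L N).filter fun l => x ∈ l).biUnion
      (fun l => ((FP P N).filter fun y => y ∈ l).erase x) := by
    ext y
    rw [Finset.mem_erase, Finset.mem_biUnion]
    constructor
    · rintro ⟨h2, h3⟩
      obtain ⟨l, hl1, hl2⟩ := exists_line (L := L) h2.symm
      refine ⟨l, ?_, ?_⟩
      · rw [Finset.mem_filter]
        exact ⟨H.join_mem N x y l h2.symm hx h3 hl1 hl2, hl1⟩
      · rw [Finset.mem_erase, Finset.mem_filter]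
        exact ⟨h2, h3, hl2⟩
    · rintro ⟨l, hl, hy⟩
      rw [Finset.mem_erase, Finset.mem_filter] at hy
      exact ⟨hy.1, hy.2.1⟩
  rw [h1, Finset.card_biUnion]
  · rw [Finset.sum_congr rfl (g := fun _ => tc L N x - 1)]
    · rw [Finset.sum_const, smul_eq_mul]
      rfl
    · intro l hl
      rw [Finset.mem_filter] at hl
      rw [Finset.card_erase_of_mem (by rw [Finset.mem_filter]; exact ⟨hx, hl.2⟩)]
      have := H.fc_const N hN x hx l hl.1
      unfold fc at this
      rw [this]
  · intro l hl m hm hlm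
    rw [Finset.mem_coe, Finset.mem_filter] at hl hm
    show Disjoint _ _
    rw [Finset.disjoint_left]
    intro y hy1 hy2
    rw [Finset.mem_erase, Finset.mem_filter] at hy1 hy2
    exact hy1.1 (pt_eq hlm hy1.2.2 hy2.2.2 hl.2 hm.2)

end group

end Pool.Agent.Q166.QR
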