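import Pool.Agent.Q166.QR.Geo

/-!
# Quasiregular groups of type (h): the number of fixed points of a normal subgroup
-/

set_option autoImplicit false
set_option linter.all false

open Finset Configuration
open scoped Classical

namespace Pool.Agent.Q166.QR

section group

variable {P L G : Type} [Membership P L] [ProjectivePlane P L] [Fintype P] [Fintype L] [Group G] [Fintype G]
  [MulAction G P] [MulAction G L] {k v : ℕ}

theorem PG.card_through (H : PG P L G k v) (x : P) : (univ.filter fun l : L => x ∈ l).card = k ^ 2 + 1 := by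
  rw [card_lines_through, H.ord]

theorem PG.card_on (H : PG P L G k v) (l : L) : (univ.filter fun x : P => x ∈ l).card = k ^ 2 + 1 := by
  rw [card_points_on, H.ord]

theorem PG.card_P (H : PG P L G k v) : Fintype.card P = k ^ 4 + k ^ 2 + 1 := by
  rw [ProjectivePlane.card_points P L, H.ord]
  ring

theorem PG.vpos (H : PG P L G k v) : 7 ≤ v := by
  have h1 := H.hv
  have h2 := H.hk
  nlinarith

theorem PG.two_k_lt (H : PG P L G k v) : 2 * k < v := by
  have h1 := H.hv
  have h2 := H.hk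
  nlinarith

theorem PG.tc_lt (H : PG P L G k v) (N : Subgroup G) (hN : N.Normal) (hN1 : N ≠ ⊥) (x : P) (hx : x ∈ FP P N) :
    tc L N x < k ^ 2 + 1 := by
  have h1 : tc L N x ≤ k ^ 2 + 1 := by
    rw [← H.card_through x]
    unfold tc
    apply Finset.card_le_card
    intro l hl
    rw [Finset.mem_filter] at hl ⊢
    exact ⟨mem_univ _, hl.2⟩
  rcases Nat.lt_or_ge (tc L N x) (k ^ 2 + 1) with h2 | h2
  · exact h2
  · exfalso
    have h3 : tc L N x = k ^ 2 + 1 := le_antisymm h1 h2
    have h4 := H.card_FP N hN x hx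
    rw [h3] at h4
    have h5 : FP P N = univ := by
      apply Finset.eq_univ_of_card
      rw [h4, H.card_P]
      simp only [Nat.add_sub_cancel]
      ring
    apply hN1
    rw [Subgroup.eq_bot_iff_forall]
    intro n hn
    apply H.faith
    intro y
    have : y ∈ FP P N := by rw [h5]; exact mem_univ _
    rw [mem_FP] at this
    exact this n hn

/-- a fixed line -/
theorem PG.exists_FL (H : PG P L G k v) (N : Subgroup G) (hN : N.Normal) (x : P) (hx : x ∈ FP P N) :
    ∃ l, l ∈ FL L N := by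
  obtain ⟨g, hg⟩ := H.exists_ne x x
  obtain ⟨l, h1, h2⟩ := exists_line (L := L) hg
  exact ⟨l, H.join_mem N _ _ l hg (smul_FP N hN g x hx) hx h1 h2⟩

/-- a point of a fixed line which is not fixed -/
theorem PG.exists_not_FP (H : PG P L G k v) (N : Subgroup G) (hN : N.Normal) (hN1 : N ≠ ⊥) (x : P)
    (hx : x ∈ FP P N) (l : L) (hl : l ∈ FL L N) : ∃ z : P, z ∈ l ∧ z ∉ FP P N := by
  by_contra hcon
  push Not at hcon
  have h1 := H.tc_lt N hN hN1 x hx
  rw [← H.fc_const N hN x hx l hl, ← H.card_on l] at h1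
  apply absurd h1
  rw [not_lt]
  unfold fc
  apply Finset.card_le_card
  intro y hy
  rw [Finset.mem_filter] at hy ⊢
  exact ⟨hcon y hy.2, hy.2⟩

/-- the lines through a point which is not fixed -/
noncomputable def jn (L : Type) [Membership P L] [ProjectivePlane P L] (z w : P) (h : z ≠ w) : L :=
  (exists_line (L := L) h).choose

theorem jn_spec (z w : P) (h : z ≠ w) : z ∈ jn L z w h ∧ w ∈ jn L z w h := (exists_line (L := L) h).choose_spec

theorem PG.jn_inj (H : PG P L G k v) (N : Subgroup G) (l : L) (hl : l ∈ FL L N) (z : P)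
    (hzl : z ∈ l) (hz : z ∉ FP P N) (w w' : P) (hw : w ∈ FP P N) (hw' : w' ∈ FP P N) (hwl : w ∉ l)
    (m : L) (h1 : z ∈ m) (h2 : w ∈ m) (h3 : w' ∈ m) : w = w' := by
  by_contra hne
  have h4 := H.join_mem N w w' m hne hw hw' h2 h3
  have h5 : l ≠ m := fun e => hwl (e ▸ h2)
  exact hz (H.meet_mem N z l m h5 hl h4 hzl h1)

theorem PG.card_off (H : PG P L G k v) (N : Subgroup G) (hN : N.Normal) (x : P) (hx : x ∈ FP P N) (l : L)
    (hl : l ∈ FL L N) : ((FP P N).filter fun w => w ∉ l).card + tc L N x = 1 + tc L N x * (tc L N x - 1) := by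
  rw [← H.card_FP N hN x hx, ← H.fc_const N hN x hx l hl]
  unfold fc
  rw [add_comm]
  exact Finset.card_filter_add_card_filter_not _

theorem PG.img (H : PG P L G k v) (N : Subgroup G) (l : L) (hl : l ∈ FL L N) (z : P)
    (hzl : z ∈ l) (hz : z ∉ FP P N) :
    ∃ F : P → L, (∀ w ∈ (FP P N).filter fun w => w ∉ l, F w ∈ (univ.filter fun m : L => z ∈ m).erase l ∧ w ∈ F w) ∧
      Set.InjOn F ((FP P N).filter fun w => w ∉ l) := by
  refine ⟨fun w => if h : z ≠ w then jn L z w h else l, ?_, ?_⟩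
  · intro w hw
    rw [Finset.mem_filter] at hw
    have h : z ≠ w := fun e => hw.2 (e ▸ hzl)
    simp only [dif_pos h]
    have h1 := jn_spec (L := L) z w h
    rw [Finset.mem_erase, Finset.mem_filter]
    exact ⟨⟨fun e => hw.2 (e ▸ h1.2), mem_univ _, h1.1⟩, h1.2⟩
  · intro w hw w' hw' he
    rw [Finset.mem_coe, Finset.mem_filter] at hw hw'
    have h : z ≠ w := fun e => hw.2 (e ▸ hzl)
    have h' : z ≠ w' := fun e => hw'.2 (e ▸ hzl)
    simp only [dif_pos h, dif_pos h'] at he
    have h1 := jn_spec (L := L) z w h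
    have h2 := jn_spec (L := L) z w' h'
    rw [← he] at h2
    exact H.jn_inj N l hl z hzl hz w w' hw.1 hw'.1 hw.2 _ h1.1 h1.2 h2.2

theorem PG.tc_le_succ (H : PG P L G k v) (N : Subgroup G) (hN : N.Normal) (hN1 : N ≠ ⊥) (x : P)
    (hx : x ∈ FP P N) : tc L N x ≤ k + 1 := by
  obtain ⟨l, hl⟩ := H.exists_FL N hN x hx
  obtain ⟨z, hzl, hz⟩ := H.exists_not_FP N hN hN1 x hx l hl
  obtain ⟨F, hF1, hF2⟩ := H.img N l hl z hzl hz
  have h1 := Finset.card_le_card_of_injOn F (fun w hw => (hF1 w hw).1) hF2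
  rw [Finset.card_erase_of_mem (by rw [Finset.mem_filter]; exact ⟨mem_univ _, hzl⟩), H.card_through] at h1
  have h2 := H.card_off N hN x hx l hl
  by_contra h3
  push Not at h3
  obtain ⟨t, ht⟩ : ∃ t, tc L N x = t + 1 := ⟨tc L N x - 1, by omega⟩
  rw [ht] at h2 h3
  simp only [Nat.add_sub_cancel] at h1 h2
  have h4 : k + 1 ≤ t := by omega
  nlinarith

theorem PG.surj (H : PG P L G k v) (N : Subgroup G) (hN : N.Normal) (x : P) (hx : x ∈ FP P N)
    (ht : tc L N x = k + 1) (l : L) (hl : l ∈ FL L N) (z : P) (hzl : z ∈ l) (hz : z ∉ FP P N) (m : L)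
    (hzm : z ∈ m) (hml : m ≠ l) : ∃ w ∈ FP P N, w ∈ m := by
  obtain ⟨F, hF1, hF2⟩ := H.img N l hl z hzl hz
  have h2 := H.card_off N hN x hx l hl
  rw [ht] at h2
  simp only [Nat.add_sub_cancel] at h2
  have h3 : ((FP P N).filter fun w => w ∉ l).card = k ^ 2 := by nlinarith
  have h4 : (((FP P N).filter fun w => w ∉ l).image F) = (univ.filter fun m : L => z ∈ m).erase l := by
    apply Finset.eq_of_subset_of_card_le
    · intro m hm
      rw [Finset.mem_image] at hm
      obtain ⟨w, hw, rfl⟩ := hm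
      exact (hF1 w hw).1
    · rw [Finset.card_image_of_injOn hF2, h3,
        Finset.card_erase_of_mem (by rw [Finset.mem_filter]; exact ⟨mem_univ _, hzl⟩), H.card_through]
      simp
  have h5 : m ∈ (univ.filter fun m : L => z ∈ m).erase l := by
    rw [Finset.mem_erase, Finset.mem_filter]
    exact ⟨hml, mem_univ _, hzm⟩
  rw [← h4, Finset.mem_image] at h5
  obtain ⟨w, hw, rfl⟩ := h5
  exact ⟨w, (Finset.mem_filter.mp hw).1, (hF1 w hw).2⟩

theorem PG.central (H : PG P L G k v) (N : Subgroup G) (hN : N.Normal) (x : P) (hx : x ∈ FP P N)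
    (ht : tc L N x = k + 1) (l : L) (hl : l ∈ FL L N) (z : P) (hzl : z ∈ l) (hz : z ∉ FP P N) (c : G)
    (hc : c ∈ N) (hcz : c • z = z) : c = 1 := by
  have hk := H.hk
  have hfl : ∀ m : L, m ∈ FL L N → c • m = m := fun m hm => (mem_FL N m).mp hm c hc
  have hfp : ∀ y : P, y ∈ FP P N → c • y = y := fun y hy => (mem_FP N y).mp hy c hc
  have h1 : ∀ m : L, z ∈ m → c • m = m := by
    intro m hm
    by_cases hml : m = l
    · rw [hml]; exact hfl l hl
    · obtain ⟨w, hw, hwm⟩ := H.surj N hN x hx ht l hl z hzl hz m hm hml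
      exact H.fix_line c z w m (fun e => hz (e ▸ hw)) hcz (hfp w hw) hm hwm
  obtain ⟨g, hg⟩ := H.not_on x l
  obtain ⟨w, hw⟩ : ∃ w, w = g • x := ⟨_, rfl⟩
  rw [← hw] at hg
  have hwF : w ∈ FP P N := by rw [hw]; exact smul_FP N hN g x hx
  have h2 : 1 < ((FL L N).filter fun l => w ∈ l).card := by
    have : tc L N w = k + 1 := by rw [hw, H.tc_smul N hN, ht]
    unfold tc at this
    omega
  obtain ⟨m1, hm1, m2, hm2, hm12⟩ := Finset.one_lt_card.mp h2
  rw [Finset.mem_filter] at hm1 hm2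
  have h3 : ∀ m : L, m ∈ FL L N → w ∈ m → ∀ y : P, y ∈ m → c • y = y := by
    intro m hm hwm y hy
    have hlm : l ≠ m := fun e => hg (e ▸ hwm)
    have hzm : z ∉ m := fun h => hz (H.meet_mem N z l m hlm hl hm hzl h)
    have hzy : z ≠ y := fun e => hzm (e ▸ hy)
    obtain ⟨h, hz1, hy1⟩ := exists_line (L := L) hzy
    exact H.fix_point c y m h (fun e => hzm (e ▸ hz1)) (hfl m hm) (h1 h hz1) hy hy1
  have h4 : ∀ h : L, w ∉ h → c • h = h := by
    intro h hwh
    have e1 : h ≠ m1 := fun e => hwh (e ▸ hm1.2)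
    have e2 : h ≠ m2 := fun e => hwh (e ▸ hm2.2)
    obtain ⟨y1, a1, b1⟩ := exists_point (P := P) e1
    obtain ⟨y2, a2, b2⟩ := exists_point (P := P) e2
    have e3 : y1 ≠ y2 := by
      intro e
      rw [← e] at b2
      have := pt_eq hm12 b1 b2 hm1.2 hm2.2
      rw [this] at a1
      exact hwh a1
    exact H.fix_line c y1 y2 h e3 (h3 m1 hm1.1 hm1.2 y1 b1) (h3 m2 hm2.1 hm2.2 y2 b2) a1 a2
  apply H.faith
  intro u
  by_cases huw : u = w
  · rw [huw]; exact hfp w hwF
  · obtain ⟨l0, hl0, hl0'⟩ := exists_line (L := L) huw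
    have h5 : 1 < ((univ.filter fun m : L => u ∈ m).erase l0).card := by
      rw [Finset.card_erase_of_mem (by rw [Finset.mem_filter]; exact ⟨mem_univ _, hl0⟩), H.card_through]
      simp only [Nat.add_sub_cancel]
      nlinarith
    obtain ⟨n1, hn1, n2, hn2, hn12⟩ := Finset.one_lt_card.mp h5
    rw [Finset.mem_erase, Finset.mem_filter] at hn1 hn2
    have h6 : ∀ n : L, n ≠ l0 → u ∈ n → w ∉ n := fun n hn hun hwn => hn (ln_eq huw hun hwn hl0 hl0')
    exact H.fix_point c u n1 n2 hn12 (h4 n1 (h6 n1 hn1.1 hn1.2.2)) (h4 n2 (h6 n2 hn2.1 hn2.2.2)) hn1.2.2 hn2.2.2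

/-- **Lemma B.** A nontrivial normal subgroup with a fixed point has at most `k` fixed lines through it. -/
theorem PG.tc_le (H : PG P L G k v) (N : Subgroup G) (hN : N.Normal) (hN1 : N ≠ ⊥) (x : P)
    (hx : x ∈ FP P N) : tc L N x ≤ k := by
  have hk := H.hk
  have h0 := H.tc_le_succ N hN hN1 x hx
  by_contra hcon
  have ht : tc L N x = k + 1 := by omega
  obtain ⟨l, hl⟩ := H.exists_FL N hN x hx
  have hc1 : Nat.card N ≠ 1 := by
    intro h
    exact hN1 (Subgroup.card_eq_one.mp h)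
  have hp := Nat.minFac_prime hc1
  obtain ⟨p, hpe⟩ : ∃ p, p = (Nat.card N).minFac := ⟨_, rfl⟩
  rw [← hpe] at hp
  have : Fact p.Prime := ⟨hp⟩
  have hpd : p ∣ Nat.card N := by rw [hpe]; exact Nat.minFac_dvd _
  obtain ⟨c, hc⟩ := exists_prime_orderOf_dvd_card' (G := N) p hpd
  -- the action of c on the points of l
  let A : Type := {y : P // y ∈ l}
  have hcl : ∀ y : P, y ∈ l → (c : G) • y ∈ l := by
    intro y hy
    have h1 := (H.inc (c : G) y l).mp hy
    rwa [(mem_FL N l).mp hl c c.2] at h1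
  let f : Function.End A := fun y => ⟨(c : G) • (y : P), hcl y y.2⟩
  have hf : ∀ n : ℕ, ∀ y : A, ((f ^ n) y : P) = ((c : G) ^ n) • (y : P) := by
    intro n
    induction n with
    | zero =>
      intro y
      rw [pow_zero, pow_zero, one_smul]
      rfl
    | succ n ih =>
      intro y
      have e1 : (f ^ (n + 1)) y = (f ^ n) (f y) := rfl
      rw [e1, ih, pow_succ, mul_smul]
  have hfp : f ^ p ^ 1 = 1 := by
    funext y
    apply Subtype.ext
    rw [hf, pow_one]
    have : (c : G) ^ p = 1 := by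
      have := pow_orderOf_eq_one c
      rw [hc] at this
      exact_mod_cast congrArg Subtype.val this
    rw [this, one_smul]
    rfl
  have h1 := Equiv.Perm.card_fixedPoints_modEq (p := p) (n := 1) hfp
  have h2 : Fintype.card A = k ^ 2 + 1 := by
    rw [Fintype.card_subtype]
    exact H.card_on l
  have h3 : Fintype.card (Function.fixedPoints f) = k + 1 := by
    have h4 := H.fc_const N hN x hx l hl
    rw [ht] at h4
    rw [← h4]
    unfold fc
    rw [← Fintype.card_coe]
    apply Fintype.card_congr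
    refine ⟨fun y => ⟨((y : A) : P), ?_⟩, fun y => ⟨⟨(y : P), (Finset.mem_filter.mp y.2).2⟩, ?_⟩, ?_, ?_⟩
    · rw [Finset.mem_filter]
      refine ⟨?_, (y : A).2⟩
      by_contra hz
      have h5 : (c : G) • ((y : A) : P) = ((y : A) : P) := congrArg Subtype.val y.2
      have h6 := H.central N hN x hx ht l hl _ (y : A).2 hz c c.2 h5
      have h7 : c = 1 := Subtype.ext h6
      rw [h7, orderOf_one] at hc
      exact hp.one_lt.ne hc
    · apply Subtype.ext
      exact (mem_FP N _).mp (Finset.mem_filter.mp y.2).1 c c.2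
    · intro y
      rfl
    · intro y
      rfl
  rw [h2, h3] at h1
  have h4 : p ∣ v := by
    have h5 : p ∣ v ^ 2 := by
      rw [← H.hG, ← Nat.card_eq_fintype_card]
      exact hpd.trans (Subgroup.card_subgroup_dvd_card N)
    exact hp.dvd_of_dvd_pow h5
  have h5 : (p : ℤ) ∣ k ^ 2 - k := by
    have := (Nat.modEq_iff_dvd.mp h1.symm)
    push_cast at this
    have e : (k : ℤ) ^ 2 + 1 - (k + 1) = k ^ 2 - k := by ring
    rwa [e] at this
  have h6 : (p : ℤ) ∣ v := by exact_mod_cast h4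
  have h7 : (p : ℤ) ∣ 1 := by
    have hv := H.hv
    zify at hv
    have e : (1 : ℤ) = v - (k ^ 2 - k) := by linarith
    rw [e]
    exact dvd_sub h6 h5
  have h8 : p ∣ 1 := by exact_mod_cast h7
  exact hp.one_lt.ne' (Nat.dvd_one.mp h8)

theorem PG.card_FP_le (H : PG P L G k v) (N : Subgroup G) (hN : N.Normal) (hN1 : N ≠ ⊥) (x : P)
    (hx : x ∈ FP P N) : (FP P N).card ≤ v := by
  rw [H.card_FP N hN x hx]
  have h1 := H.tc_le N hN hN1 x hx
  have h2 := H.hv
  obtain ⟨k', rfl⟩ : ∃ k', k = k' + 1 := ⟨k - 1, by have := H.hk; omega⟩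
  have h3 : tc L N x * (tc L N x - 1) ≤ (k' + 1) * k' := Nat.mul_le_mul h1 (by omega)
  nlinarith

end group

end Pool.Agent.Q166.QR
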