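import Pool.Agent.Q166.QR.Geo2

/-!
# Quasiregular groups of type (h): the orbits
-/

set_option autoImplicit false
set_option linter.all false

open Finset Configuration
open scoped Classical

namespace Pool.Agent.Q166.QR

section group

variable {P L G : Type} [Membership P L] [ProjectivePlane P L] [Fintype P] [Fintype L] [Group G] [Fintype G]
  [MulAction G P] [MulAction G L] {k v : ℕ}

/-- the orbit as a finite set -/
noncomputable def ob (G : Type) {P : Type} [Fintype P] [Group G] [MulAction G P] (x : P) : Finset P :=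
  univ.filter fun y => y ∈ MulAction.orbit G x

theorem mem_ob (x y : P) : y ∈ ob G x ↔ y ∈ MulAction.orbit G x := by simp [ob]

theorem PG.st_normal (H : PG P L G k v) (x : P) : (MulAction.stabilizer G x).Normal := by
  constructor
  intro n hn g
  rw [MulAction.mem_stabilizer_iff] at hn ⊢
  have h1 := H.qp n x (g⁻¹ • x) ⟨g⁻¹, rfl⟩ hn
  rw [mul_smul, mul_smul, h1, smul_inv_smul]

theorem PG.ob_sub (H : PG P L G k v) (x y : P) (hy : y ∈ ob G x) : y ∈ FP P (MulAction.stabilizer G x) := by
  rw [mem_FP]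
  intro n hn
  rw [mem_ob] at hy
  exact H.qp n x y hy hn

theorem PG.self_FP (H : PG P L G k v) (x : P) : x ∈ FP P (MulAction.stabilizer G x) := by
  rw [mem_FP]
  intro n hn
  exact hn

theorem PG.card_ob (H : PG P L G k v) (x : P) : (ob G x).card * Nat.card (MulAction.stabilizer G x) = v ^ 2 := by
  have h1 := MulAction.card_orbit_mul_card_stabilizer_eq_card_group G x
  rw [H.hG] at h1
  rw [← h1, Nat.card_eq_fintype_card]
  congr 1
  unfold ob
  rw [Fintype.card_subtype]

theorem PG.ob_le (H : PG P L G k v) (x : P) (hx : MulAction.stabilizer G x ≠ ⊥) : (ob G x).card ≤ v := by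
  refine le_trans (Finset.card_le_card ?_) (H.card_FP_le _ (H.st_normal x) hx x (H.self_FP x))
  intro y hy
  exact H.ob_sub x y hy

theorem PG.ob_reg (H : PG P L G k v) (x : P) (hx : MulAction.stabilizer G x = ⊥) : (ob G x).card = v ^ 2 := by
  have h1 := H.card_ob x
  rw [hx, Nat.card_eq_fintype_card, Fintype.card_eq_one_iff_nonempty_unique.mpr ⟨inferInstance⟩, mul_one] at h1
  exact h1

/-- the space of the orbits -/
abbrev Om (G P : Type) [Group G] [MulAction G P] : Type := MulAction.orbitRel.Quotient G P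

theorem mk_eq_iff (w : Om G P) (y : P) : (Quotient.mk'' y : Om G P) = w ↔ y ∈ ob G w.out := by
  rw [mem_ob]
  conv_lhs => rw [← Quotient.out_eq w]
  rw [← Quotient.mk''_eq_mk, Quotient.eq'']
  exact MulAction.orbitRel_apply

theorem PG.sum_ob (H : PG P L G k v) : ∑ w : Om G P, (ob G w.out).card = v ^ 2 + 2 * k * v := by
  have h1 := Finset.card_eq_sum_card_fiberwise (s := (univ : Finset P)) (t := (univ : Finset (Om G P)))
    (f := fun y => (Quotient.mk'' y : Om G P)) (fun _ _ => mem_univ _)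
  rw [Finset.card_univ, H.card_P] at h1
  have h2 : ∀ w : Om G P, (univ.filter fun y : P => (Quotient.mk'' y : Om G P) = w).card = (ob G w.out).card := by
    intro w
    congr 1
    ext y
    rw [Finset.mem_filter, mk_eq_iff]
    simp
  rw [Finset.sum_congr rfl (fun w _ => h2 w)] at h1
  rw [← h1]
  have h3 := H.hv
  zify at h3 ⊢
  have h4 : (v : ℤ) = k ^ 2 - k + 1 := by linarith
  rw [h4]
  ring

/-- the regular orbits -/
noncomputable def RO (G P : Type) [Fintype P] [Group G] [MulAction G P] : Finset (Om G P) :=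
  univ.filter fun w => MulAction.stabilizer G w.out = ⊥

theorem PG.card_RO (H : PG P L G k v) (hQ : Fintype.card (Om G P) = 2 * k + 1) : (RO G P).card = 1 ∧
    ∀ w : Om G P, w ∉ RO G P → (ob G w.out).card = v := by
  have h1 := H.sum_ob
  have h2 : ∑ w : Om G P, (ob G w.out).card = ∑ w ∈ RO G P, (ob G w.out).card +
      ∑ w ∈ univ \ RO G P, (ob G w.out).card := by
    rw [add_comm, Finset.sum_sdiff (Finset.subset_univ _)]
  have h3 : ∑ w ∈ RO G P, (ob G w.out).card = (RO G P).card * v ^ 2 := by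
    rw [Finset.sum_congr rfl (g := fun _ => v ^ 2), Finset.sum_const, smul_eq_mul]
    intro w hw
    rw [RO, Finset.mem_filter] at hw
    exact H.ob_reg _ hw.2
  have h4 : ∀ w ∈ univ \ RO G P, (ob G w.out).card ≤ v := by
    intro w hw
    rw [Finset.mem_sdiff, RO, Finset.mem_filter] at hw
    exact H.ob_le _ (fun h => hw.2 ⟨mem_univ _, h⟩)
  have h5 : (univ \ RO G P).card + (RO G P).card = 2 * k + 1 := by
    rw [Finset.card_sdiff_add_card_eq_card (Finset.subset_univ _), Finset.card_univ, hQ]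
  have h6 : ∑ w ∈ univ \ RO G P, (ob G w.out).card ≤ (univ \ RO G P).card * v := by
    rw [← smul_eq_mul, ← Finset.sum_const]
    exact Finset.sum_le_sum h4
  have hv7 := H.vpos
  have h2k := H.two_k_lt
  rw [h2, h3] at h1
  have h7 : (RO G P).card = 1 := by
    rcases Nat.lt_trichotomy (RO G P).card 1 with h | h | h
    · exfalso
      have h8 : (RO G P).card = 0 := by omega
      rw [h8] at h1 h5
      have h9 : (univ \ RO G P).card = 2 * k + 1 := by omega
      rw [h9] at h6
      nlinarith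
    · exact h
    · exfalso
      have h8 : 2 * v ^ 2 ≤ (RO G P).card * v ^ 2 := Nat.mul_le_mul_right _ h
      have h9 : 2 * k * v < v ^ 2 := by
        rw [pow_two]
        exact Nat.mul_lt_mul_of_pos_right h2k (by omega)
      omega
  refine ⟨h7, ?_⟩
  rw [h7] at h1 h5
  have h8 : (univ \ RO G P).card = 2 * k := by omega
  have h9 : ∑ w ∈ univ \ RO G P, (ob G w.out).card = ∑ w ∈ univ \ RO G P, v := by
    rw [Finset.sum_const, smul_eq_mul, h8]
    omega
  have h10 := (Finset.sum_eq_sum_iff_of_le h4).mp h9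
  intro w hw
  exact h10 w (by rw [Finset.mem_sdiff]; exact ⟨mem_univ _, hw⟩)

/-- the index set of the orbits which are not regular -/
abbrev Ix (G P : Type) [Fintype P] [Group G] [MulAction G P] : Type := {w : Om G P // w ∉ RO G P}

/-- the stabilizers -/
noncomputable def Ns (w : Ix G P) : Subgroup G := MulAction.stabilizer G w.1.out

/-- the hypotheses with the number of orbits -/
structure PH (P L G : Type) [Membership P L] [ProjectivePlane P L] [Fintype P] [Fintype L] [Group G] [Fintype G]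
    [MulAction G P] [MulAction G L] (k v : ℕ) : Prop where
  pg : PG P L G k v
  hQ : Fintype.card (Om G P) = 2 * k + 1

theorem PH.card_Ix (H : PH P L G k v) : Fintype.card (Ix G P) = 2 * k := by
  have h1 := (H.pg.card_RO H.hQ).1
  rw [Fintype.card_subtype_compl, H.hQ]
  have h2 : Fintype.card {x // x ∈ RO G P} = 1 := by rw [Fintype.card_coe, h1]
  rw [h2]
  simp

theorem PH.ob_card (H : PH P L G k v) (w : Ix G P) : (ob G w.1.out).card = v := (H.pg.card_RO H.hQ).2 w.1 w.2

theorem PH.Ns_card (H : PH P L G k v) (w : Ix G P) : Nat.card (Ns w) = v := by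
  have h1 := H.pg.card_ob w.1.out
  rw [H.ob_card w, pow_two] at h1
  exact Nat.eq_of_mul_eq_mul_left (by have := H.pg.vpos; omega) h1

theorem PH.Ns_ne (H : PH P L G k v) (w : Ix G P) : Ns w ≠ ⊥ := by
  intro h
  exact w.2 (Finset.mem_filter.mpr ⟨mem_univ _, h⟩)

theorem PH.Ns_normal (H : PH P L G k v) (w : Ix G P) : (Ns w).Normal := H.pg.st_normal _

/-- the fixed points of a nontrivial normal subgroup of `Ns w` are the points of the orbit -/
theorem PH.FP_eq (H : PH P L G k v) (w : Ix G P) (M : Subgroup G) (hM : M.Normal) (hM1 : M ≠ ⊥) (hMN : M ≤ Ns w) :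
    FP P M = ob G w.1.out := by
  symm
  apply Finset.eq_of_subset_of_card_le
  · intro y hy
    have := H.pg.ob_sub _ y hy
    rw [mem_FP] at this ⊢
    exact fun n hn => this n (hMN hn)
  · rw [H.ob_card w]
    have hx : w.1.out ∈ FP P M := by
      rw [mem_FP]
      intro n hn
      exact hMN hn
    exact H.pg.card_FP_le M hM hM1 _ hx

theorem ob_inj (w w' : Om G P) (y : P) (h : y ∈ ob G w.out) (h' : y ∈ ob G w'.out) : w = w' := by
  rw [← mk_eq_iff] at h h'
  rw [← h, ← h']

theorem PH.Ns_inf (H : PH P L G k v) (w w' : Ix G P) (hne : w ≠ w') : Ns w ⊓ Ns w' = ⊥ := by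
  by_contra hcon
  have hn : (Ns w ⊓ Ns w').Normal := by
    have h1 := H.Ns_normal w
    have h2 := H.Ns_normal w'
    infer_instance
  have h1 := H.FP_eq w _ hn hcon inf_le_left
  have h2 := H.FP_eq w' _ hn hcon inf_le_right
  rw [h1] at h2
  have h3 : w.1.out ∈ ob G w.1.out := by rw [mem_ob]; exact MulAction.mem_orbit_self _
  have h4 := h3
  rw [h2] at h4
  exact hne (Subtype.ext (ob_inj _ _ _ h3 h4))

theorem PH.two (H : PH P L G k v) (w : Ix G P) : ∃ i j : Ix G P, i ≠ w ∧ j ≠ w ∧ i ≠ j := by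
  have h1 : 1 < ((univ : Finset (Ix G P)).erase w).card := by
    rw [Finset.card_erase_of_mem (mem_univ _), Finset.card_univ, H.card_Ix]
    have := H.pg.hk
    omega
  obtain ⟨i, hi, j, hj, hij⟩ := Finset.one_lt_card.mp h1
  rw [Finset.mem_erase] at hi hj
  exact ⟨i, j, hi.1, hj.1, hij⟩

theorem PH.prod (H : PH P L G k v) (i j : Ix G P) (hij : i ≠ j) (g : G) : ∃ a ∈ Ns i, ∃ b ∈ Ns j, g = a * b := by
  have hinj : Function.Injective (fun p : Ns i × Ns j => (p.1 : G) * (p.2 : G)) := by
    rintro ⟨⟨a, ha⟩, ⟨b, hb⟩⟩ ⟨⟨a', ha'⟩, ⟨b', hb'⟩⟩ h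
    simp only at h
    have h3 : a'⁻¹ * a = b' * b⁻¹ := by
      rw [inv_mul_eq_iff_eq_mul, ← mul_assoc, eq_mul_inv_iff_mul_eq]
      exact h
    have h4 : a'⁻¹ * a ∈ Ns i ⊓ Ns j := by
      refine ⟨(Ns i).mul_mem ((Ns i).inv_mem ha') ha, ?_⟩
      rw [h3]
      exact (Ns j).mul_mem hb' ((Ns j).inv_mem hb)
    rw [H.Ns_inf i j hij, Subgroup.mem_bot] at h4
    have h5 : a = a' := (inv_mul_eq_one.mp h4).symm
    subst h5
    have h6 : b = b' := mul_left_cancel h
    subst h6
    rfl
  have hcard : Fintype.card (Ns i × Ns j) = Fintype.card G := by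
    rw [Fintype.card_prod, ← Nat.card_eq_fintype_card, ← Nat.card_eq_fintype_card, H.Ns_card, H.Ns_card,
      H.pg.hG, pow_two]
  have hsurj := ((Fintype.bijective_iff_injective_and_card _).mpr ⟨hinj, hcard⟩).2
  obtain ⟨⟨a, b⟩, h⟩ := hsurj g
  exact ⟨a, a.2, b, b.2, h.symm⟩

theorem PH.comm' (H : PH P L G k v) (i j : Ix G P) (hij : i ≠ j) (a b : G) (ha : a ∈ Ns i) (hb : b ∈ Ns j) :
    a * b = b * a := by
  have h1 := Subgroup.commute_of_normal_of_disjoint (Ns i) (Ns j) (H.Ns_normal i) (H.Ns_normal j)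
    (disjoint_iff.mpr (H.Ns_inf i j hij)) a b ha hb
  exact h1

theorem PH.comm (H : PH P L G k v) (a b : G) : a * b = b * a := by
  have hc : ∀ (w : Ix G P) (c g : G), c ∈ Ns w → c * g = g * c := by
    intro w c g hc
    obtain ⟨i, j, hi, hj, hij⟩ := H.two w
    obtain ⟨x, hx, y, hy, rfl⟩ := H.prod i j hij g
    rw [← mul_assoc, H.comm' w i hi.symm c x hc hx, mul_assoc, H.comm' w j hj.symm c y hc hy, mul_assoc]
  have hne : Nonempty (Ix G P) := by
    apply Fintype.card_pos_iff.mp
    rw [H.card_Ix]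
    have := H.pg.hk
    omega
  obtain ⟨w⟩ := hne
  obtain ⟨i, j, hi, hj, hij⟩ := H.two w
  obtain ⟨x, hx, y, hy, rfl⟩ := H.prod i j hij a
  rw [mul_assoc, hc j y b hy, ← mul_assoc, hc i x b hx, mul_assoc]

end group

end Pool.Agent.Q166.QR
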