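import Mathlib

/-!
# Quasiregular groups of type (h): arithmetic
-/

set_option autoImplicit false
set_option linter.all false

namespace Pool.Agent.Q166.QR

/-- modulo an odd prime power only `±1` have the square `1` -/
theorem sq_one (r b : ℕ) (hr : r.Prime) (hr2 : r ≠ 2) (x : ℤ) (h : ((r ^ b : ℕ) : ℤ) ∣ x ^ 2 - 1) :
    ((r ^ b : ℕ) : ℤ) ∣ x - 1 ∨ ((r ^ b : ℕ) : ℤ) ∣ x + 1 := by
  have hri : Prime (r : ℤ) := Nat.prime_iff_prime_int.mp hr
  have h1 : x ^ 2 - 1 = (x - 1) * (x + 1) := by ring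
  rw [h1] at h
  push_cast at h ⊢
  by_cases h2 : (r : ℤ) ∣ x - 1
  · left
    have h3 : ¬ (r : ℤ) ∣ x + 1 := by
      intro h4
      have h5 : (r : ℤ) ∣ 2 := by
        have := dvd_sub h4 h2
        have e : x + 1 - (x - 1) = 2 := by ring
        rwa [e] at this
      have h6 : r ∣ 2 := by exact_mod_cast h5
      exact hr2 ((Nat.prime_dvd_prime_iff_eq hr Nat.prime_two).mp h6)
    have h4 : IsCoprime ((r : ℤ) ^ b) (x + 1) := (IsCoprime.pow_left ((Prime.coprime_iff_not_dvd hri).mpr h3))
    exact h4.dvd_of_dvd_mul_right h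
  · right
    have h4 : IsCoprime ((r : ℤ) ^ b) (x - 1) := (IsCoprime.pow_left ((Prime.coprime_iff_not_dvd hri).mpr h2))
    exact h4.dvd_of_dvd_mul_left h

/-- either `-1` is a power of `q` modulo `r ^ b` or `q` has odd order -/
theorem even_or_odd (r b : ℕ) (hr : r.Prime) (hr2 : r ≠ 2) (hv : 3 ≤ r ^ b) (q : ℕ)
    (hq : Nat.Coprime q (r ^ b)) : (∃ j, 0 < j ∧ r ^ b ∣ q ^ j + 1) ∨
      ∃ n, Odd n ∧ ((q : ZMod (r ^ b)) ^ n = 1) := by
  have : NeZero (r ^ b) := ⟨by omega⟩
  obtain ⟨u, hu⟩ : ∃ u : (ZMod (r ^ b))ˣ, (u : ZMod (r ^ b)) = q := ⟨ZMod.unitOfCoprime q hq, by simp⟩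
  rcases Nat.even_or_odd (orderOf u) with he | ho
  · left
    obtain ⟨j, hj⟩ := he
    have hpos : 0 < orderOf u := orderOf_pos u
    have hj0 : 0 < j := by omega
    refine ⟨j, hj0, ?_⟩
    have h1 : u ^ (2 * j) = 1 := by rw [show 2 * j = orderOf u by omega]; exact pow_orderOf_eq_one u
    have h2 : u ^ j ≠ 1 := by
      intro h
      have := Nat.le_of_dvd hj0 (orderOf_dvd_of_pow_eq_one h)
      omega
    have h3 : ((q : ZMod (r ^ b)) ^ j) ^ 2 = 1 := by
      rw [← hu, ← Units.val_pow_eq_pow_val, ← Units.val_pow_eq_pow_val, ← pow_mul, mul_comm j 2, h1, Units.val_one]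
    have h4 : ((r ^ b : ℕ) : ℤ) ∣ ((q : ℤ) ^ j) ^ 2 - 1 := by
      rw [← ZMod.intCast_zmod_eq_zero_iff_dvd]
      push_cast
      rw [h3, sub_self]
    rcases sq_one r b hr hr2 _ h4 with h5 | h5
    · exfalso
      apply h2
      apply Units.ext
      rw [Units.val_pow_eq_pow_val, hu, Units.val_one]
      have := (ZMod.intCast_zmod_eq_zero_iff_dvd ((q : ℤ) ^ j - 1) (r ^ b)).mpr h5
      push_cast at this
      exact sub_eq_zero.mp this
    · exact_mod_cast h5
  · right
    refine ⟨orderOf u, ho, ?_⟩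
    rw [← hu, ← Units.val_pow_eq_pow_val, pow_orderOf_eq_one, Units.val_one]

/-- products of elements of odd order -/
theorem odd_mul (v : ℕ) : ∀ m : ℕ, 0 < m → (∀ q : ℕ, q.Prime → q ∣ m → ∃ n, Odd n ∧ ((q : ZMod v) ^ n = 1)) →
    ∃ n, Odd n ∧ ((m : ZMod v) ^ n = 1) := by
  intro m
  induction m using Nat.strong_induction_on with
  | _ m ih =>
    intro hm h
    rcases eq_or_ne m 1 with h1 | h1
    · exact ⟨1, odd_one, by rw [h1]; simp⟩
    · have hp := Nat.minFac_prime h1
      obtain ⟨c, hc⟩ := Nat.minFac_dvd m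
      have hc0 : 0 < c := by
        rcases Nat.eq_zero_or_pos c with h0 | h0
        · rw [h0, mul_zero] at hc; omega
        · exact h0
      have hcm : c < m := by
        have := hp.two_le
        calc c < 2 * c := by omega
          _ ≤ m.minFac * c := Nat.mul_le_mul_right c this
          _ = m := hc.symm
      obtain ⟨n1, ho1, h2⟩ := ih c hcm hc0 (fun q hq hqc => h q hq (hqc.trans (Dvd.intro_left _ hc.symm)))
      obtain ⟨n2, ho2, h3⟩ := h _ hp (Nat.minFac_dvd m)
      refine ⟨n1 * n2, ho1.mul ho2, ?_⟩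
      have : ((m : ℕ) : ZMod v) = (m.minFac : ZMod v) * c := by
        conv_lhs => rw [hc]
        push_cast
        rfl
      rw [this, mul_pow, mul_comm n1 n2, pow_mul, h3, one_pow, one_mul, mul_comm n2 n1, pow_mul, h2, one_pow]

/-- the arithmetic of the parameters -/
theorem nt (k v r b : ℕ) (hk : 3 ≤ k) (hv : v + k = k ^ 2 + 1) (hr : r.Prime) (hvr : v = r ^ b) :
    (∃ q a j : ℕ, q.Prime ∧ q ^ a ∣ k ∧ 3 ≤ q ^ a ∧ 0 < j ∧ v ∣ q ^ j + 1) ∨
      (∃ q j : ℕ, q.Prime ∧ ((q : ℤ) ∣ k - 1) ∧ 0 < j ∧ v ∣ q ^ j + 1) := by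
  have hv7 : 7 ≤ v := by nlinarith
  have hvZ : (v : ℤ) = k ^ 2 - k + 1 := by zify at hv; linarith
  have hb : b ≠ 0 := by rintro rfl; rw [pow_zero] at hvr; omega
  have hrv : r ∣ v := by rw [hvr]; exact dvd_pow_self r hb
  -- v is odd
  have hodd : v % 2 = 1 := by
    have h1 : k ^ 2 % 2 = k % 2 := by
      rcases Nat.mod_two_eq_zero_or_one k with h | h <;> simp [Nat.pow_mod, h]
    omega
  have hr2 : r ≠ 2 := by
    rintro rfl
    omega
  have hcop : Nat.Coprime k v := by
    have h1 : k * (k - 1) + 1 = v := by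
      obtain ⟨k', rfl⟩ : ∃ k', k = k' + 1 := ⟨k - 1, by omega⟩
      simp only [Nat.add_sub_cancel]
      nlinarith
    rw [← h1]
    exact (Nat.coprime_mul_right_add_right k 1 (k-1)).mpr (Nat.coprime_one_right k) |> fun h => by
      simpa using h
  -- a prime factor of k of even order
  have hk3 : ((k : ZMod v)) ^ 3 = -1 := by
    have h1 : ((v : ℤ) : ZMod v) = 0 := by simp
    rw [hvZ] at h1
    push_cast at h1
    linear_combination ((k : ZMod v) + 1) * h1
  have hq : ∃ q : ℕ, q.Prime ∧ q ∣ k ∧ ∃ j, 0 < j ∧ v ∣ q ^ j + 1 := by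
    by_contra hcon
    push Not at hcon
    obtain ⟨n, hn, h1⟩ := odd_mul v k (by omega) (by
      intro q hq hqk
      have hc : Nat.Coprime q v := Nat.Coprime.coprime_dvd_left hqk hcop
      rcases even_or_odd r b hr hr2 (by rw [← hvr]; omega) q (by rw [← hvr]; exact hc) with h | h
      · obtain ⟨j, hj0, hj⟩ := h
        rw [← hvr] at hj
        exact absurd hj (hcon q hq hqk j hj0)
      · rw [← hvr] at h
        exact h)
    have h2 : (((k : ZMod v)) ^ 3) ^ n = 1 := by rw [← pow_mul, mul_comm, pow_mul, h1, one_pow]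
    rw [hk3, hn.neg_one_pow] at h2
    have h3 : ((2 : ℕ) : ZMod v) = 0 := by
      push_cast
      linear_combination -h2
    have h4 := (ZMod.natCast_eq_zero_iff 2 v).mp h3
    have := Nat.le_of_dvd (by norm_num) h4
    omega
  obtain ⟨q, hqp, hqk, j, hj0, hj⟩ := hq
  obtain ⟨a, m, hm, hkm⟩ := Nat.exists_eq_pow_mul_and_not_dvd (n := k) (by omega) q hqp.ne_one
  have ha : a ≠ 0 := by
    rintro rfl
    rw [pow_zero, one_mul] at hkm
    rw [hkm] at hqk
    exact hm hqk
  by_cases h3 : 3 ≤ q ^ a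
  · left
    exact ⟨q, a, j, hqp, ⟨m, hkm⟩, h3, hj0, hj⟩
  · have hq2 := hqp.two_le
    have h4 : q ^ 1 ≤ q ^ a := Nat.pow_le_pow_right (by omega) (by omega)
    have hq2' : q = 2 := by rw [pow_one] at h4; omega
    subst hq2'
    have ha1 : a = 1 := by
      by_contra h5
      have : 2 ^ 2 ≤ 2 ^ a := Nat.pow_le_pow_right (by norm_num) (by omega)
      omega
    subst ha1
    -- k is 2 mod 4, v is 3 mod 4
    have hv4 : v % 4 = 3 := by
      have h6 : k % 4 = 2 := by omega
      have h7 : k ^ 2 % 4 = 0 := by rw [Nat.pow_mod, h6]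
      omega
    have hr4 : r % 4 = 3 := by
      have h6 : r % 4 = 1 ∨ r % 4 = 3 := by
        have := hr.eq_two_or_odd
        omega
      rcases h6 with h6 | h6
      · exfalso
        have : r ^ b % 4 = 1 := by simp [Nat.pow_mod, h6]
        omega
      · exact h6
    -- 3 does not divide v
    have h3v : ¬ 3 ∣ v := by
      intro h6
      have h7 : r = 3 := by
        rw [hvr] at h6
        exact ((Nat.prime_dvd_prime_iff_eq Nat.prime_three hr).mp (Nat.prime_three.dvd_of_dvd_pow h6)).symm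
      subst h7
      have h8 : 2 ≤ b := by
        by_contra h9
        have : b = 1 := by omega
        rw [this] at hvr
        omega
      have h9 : 9 ∣ v := by
        rw [hvr]
        exact (pow_dvd_pow 3 h8)
      have h10 : (k ^ 2 + 1) % 9 = k % 9 := by omega
      have h11 : k % 9 < 9 := Nat.mod_lt _ (by norm_num)
      rw [Nat.add_mod, Nat.pow_mod] at h10
      interval_cases (k % 9) <;> omega
    have h3c : Nat.Coprime 3 v := (Nat.Prime.coprime_iff_not_dvd Nat.prime_three).mpr h3v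
    have h3e : ∃ j, 0 < j ∧ v ∣ 3 ^ j + 1 := by
      rcases even_or_odd r b hr hr2 (by rw [← hvr]; omega) 3 (by rw [← hvr]; exact h3c) with h | h
      · rw [← hvr] at h
        exact h
      · exfalso
        rw [← hvr] at h
        obtain ⟨n, hn, h6⟩ := h
        have : Fact r.Prime := ⟨hr⟩
        obtain ⟨t, ht⟩ : Even (n + 1) := hn.add_one
        have h7 : v ∣ 3 ^ n - 1 := by
          have : ((3 ^ n - 1 : ℕ) : ZMod v) = 0 := by
            rw [Nat.cast_sub (Nat.one_le_pow _ _ (by norm_num))]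
            push_cast
            push_cast at h6
            rw [h6, sub_self]
          exact (ZMod.natCast_eq_zero_iff _ _).mp this
        have h8 : (3 : ZMod r) ^ n = 1 := by
          have h9 := (ZMod.natCast_eq_zero_iff (3 ^ n - 1) r).mpr (hrv.trans h7)
          rw [Nat.cast_sub (Nat.one_le_pow _ _ (by norm_num))] at h9
          push_cast at h9
          exact sub_eq_zero.mp h9
        have h10 : ((3 : ZMod r) ^ t) ^ 2 = 3 := by
          rw [← pow_mul, show t * 2 = n + 1 by omega, pow_succ, h8, one_mul]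
        have h11 : (2 * (k : ZMod r) - 1) ^ 2 = -3 := by
          have h12 : ((v : ℤ) : ZMod r) = 0 := by
            rw [ZMod.intCast_zmod_eq_zero_iff_dvd]
            exact_mod_cast hrv
          rw [hvZ] at h12
          push_cast at h12
          linear_combination 4 * h12
        have h13 : (3 : ZMod r) ^ t ≠ 0 := by
          intro h14
          rw [h14] at h10
          have h15 : ((3 : ℕ) : ZMod r) = 0 := by
            push_cast
            rw [← h10]; ring
          have h16 := (ZMod.natCast_eq_zero_iff 3 r).mp h15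
          have h17 : r = 3 := (Nat.prime_dvd_prime_iff_eq hr Nat.prime_three).mp h16
          rw [h17] at hrv
          exact h3v hrv
        apply ZMod.mod_four_ne_three_of_sq_eq_neg_one (p := r) (y := (2 * (k : ZMod r) - 1) * ((3 : ZMod r) ^ t)⁻¹) _ hr4
        rw [mul_pow, h11, inv_pow, h10]
        have h18 : (3 : ZMod r) ≠ 0 := by
          intro h19
          exact h13 (pow_eq_zero_iff (two_ne_zero) |>.mp (h10.trans h19))
        field_simp
    obtain ⟨j3, hj30, hj3⟩ := h3e
    have hk3' : k % 3 = 0 ∨ k % 3 = 1 := by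
      by_contra h6
      have h7 : k % 3 = 2 := by omega
      have h8 : k ^ 2 % 3 = 1 := by rw [Nat.pow_mod, h7]
      apply h3v
      omega
    rcases hk3' with h6 | h6
    · left
      exact ⟨3, 1, j3, Nat.prime_three, by rw [pow_one]; omega, by norm_num, hj30, hj3⟩
    · right
      refine ⟨3, j3, Nat.prime_three, ?_, hj30, hj3⟩
      push_cast
      omega

end Pool.Agent.Q166.QR
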