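import Pool.Agent.Q166.QR.Fin
import Pool.Agent.Q166.QR.Num

/-!
# Quasiregular groups of type (h): the order is a prime power
-/

set_option autoImplicit false
set_option linter.all false

open Finset
open scoped Classical

namespace Pool.Agent.Q166.QR

section

variable {G : Type} [CommGroup G] [Fintype G] {k v : ℕ} {ι : Type} [Fintype ι] {N : ι → Subgroup G}
  {D : Finset G}

/-- the elements of `p`-power order -/
noncomputable def EE (G : Type) [CommGroup G] [Fintype G] (m : ℕ) : Finset G := univ.filter fun g => g ^ m = 1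

theorem card_EE (p c n : ℕ) (hp : p.Prime) (hn : n ≠ 0) (hG : Fintype.card G = n ^ 2)
    (hc : c = n.factorization p) : (EE G (p ^ c)).card ≤ (p ^ c) ^ 2 := by
  have : Fact p.Prime := ⟨hp⟩
  let K : Subgroup G := (powMonoidHom (p ^ c) : G →* G).ker
  have h1 : (EE G (p ^ c)).card = Nat.card K := by
    rw [Nat.card_eq_fintype_card, Fintype.card_subtype]
    congr 1
    ext g
    rw [EE, Finset.mem_filter, Finset.mem_filter]
    exact Iff.rfl
  have h2 : IsPGroup p K := by
    rintro ⟨g, hg⟩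
    refine ⟨c, ?_⟩
    apply Subtype.ext
    have : (powMonoidHom (p ^ c) : G →* G) g = 1 := hg
    simpa using this
  obtain ⟨m, hm⟩ := IsPGroup.iff_card.mp h2
  have h3 : Nat.card K ∣ n ^ 2 := by
    rw [← hG, ← Nat.card_eq_fintype_card]
    exact Subgroup.card_subgroup_dvd_card K
  rw [hm] at h3
  have h4 : m ≤ (n ^ 2).factorization p := (hp.pow_dvd_iff_le_factorization (pow_ne_zero 2 hn)).mp h3
  rw [Nat.factorization_pow] at h4
  have h5 : m ≤ 2 * c := by rw [hc]; simpa using h4
  rw [h1, hm, ← pow_mul]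
  exact Nat.pow_le_pow_right hp.pos (by omega)

theorem card_EN (M : Subgroup G) (p c : ℕ) (hp : p.Prime) (hd : p ^ c ∣ Nat.card M) :
    p ^ c ≤ ((sf M).filter fun g => g ^ (p ^ c) = 1).card := by
  have : Fact p.Prime := ⟨hp⟩
  obtain ⟨K, hK⟩ := Sylow.exists_subgroup_card_pow_prime p hd
  have hK' : p ^ c = (univ : Finset K).card := by rw [← hK, Nat.card_eq_fintype_card, ← Finset.card_univ]
  rw [hK']
  apply Finset.card_le_card_of_injOn (fun x : K => ((x : M) : G))
  · intro x _
    simp only [Finset.coe_filter, Set.mem_setOf_eq, mem_sf]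
    refine ⟨(x : M).2, ?_⟩
    have h1 : x ^ Nat.card K = 1 := pow_card_eq_one'
    rw [hK] at h1
    have h2 := congrArg (fun y : K => ((y : M) : G)) h1
    rw [← hK']
    simpa using h2
  · intro x _ y _ h
    exact Subtype.ext (Subtype.ext h)

theorem Hy.spread (H : Hy G k v ι N D) (p : ℕ) (hp : p.Prime) (hpv : p ∣ v) :
    2 * k ≤ p ^ (v.factorization p) + 1 := by
  have hv7 := H.v_pos
  obtain ⟨c, hc⟩ : ∃ c, c = v.factorization p := ⟨_, rfl⟩
  rw [← hc]
  have hc0 : c ≠ 0 := by
    have : 1 ≤ v.factorization p := (hp.dvd_iff_one_le_factorization (by omega)).mp hpv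
    omega
  have h1 := card_EE (G := G) p c v hp (by omega) H.hG hc
  have h2 : ∀ i, p ^ c ≤ ((sf (N i)).filter fun g => g ^ (p ^ c) = 1).card := by
    intro i
    apply card_EN _ p c hp
    rw [H.hN, hc]
    exact Nat.ordProj_dvd v p
  let F : ι → Finset G := fun i => ((sf (N i)).filter fun g => g ^ (p ^ c) = 1).erase 1
  have h3 : ∀ i, p ^ c - 1 ≤ (F i).card := by
    intro i
    have := Finset.card_erase_of_mem (s := (sf (N i)).filter fun g => g ^ (p ^ c) = 1) (a := 1)
      (by rw [Finset.mem_filter, mem_sf]; exact ⟨(N i).one_mem, one_pow _⟩)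
    show p ^ c - 1 ≤ (((sf (N i)).filter fun g => g ^ (p ^ c) = 1).erase 1).card
    rw [this]
    have := h2 i
    omega
  have h4 : (univ.biUnion F).card = ∑ i, (F i).card := by
    apply Finset.card_biUnion
    intro i _ j _ hij
    show Disjoint (F i) (F j)
    rw [Finset.disjoint_left]
    intro g hg1 hg2
    rw [Finset.mem_erase, Finset.mem_filter, mem_sf] at hg1 hg2
    have : g ∈ N i ⊓ N j := ⟨hg1.2.1, hg2.2.1⟩
    rw [H.hNN i j hij, Subgroup.mem_bot] at this
    exact hg1.1 this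
  have h5 : univ.biUnion F ⊆ (EE G (p ^ c)).erase 1 := by
    intro g hg
    rw [Finset.mem_biUnion] at hg
    obtain ⟨i, _, hg⟩ := hg
    rw [Finset.mem_erase, Finset.mem_filter] at hg
    rw [Finset.mem_erase]
    exact ⟨hg.1, by rw [EE, Finset.mem_filter]; exact ⟨mem_univ _, hg.2.2⟩⟩
  have h6 := Finset.card_le_card h5
  rw [Finset.card_erase_of_mem (by rw [EE, Finset.mem_filter]; exact ⟨mem_univ _, one_pow _⟩), h4] at h6
  have h7 : 2 * k * (p ^ c - 1) ≤ ∑ i, (F i).card := by
    calc 2 * k * (p ^ c - 1) = ∑ i : ι, (p ^ c - 1) := by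
          rw [Finset.sum_const, Finset.card_univ, H.hι, smul_eq_mul]
      _ ≤ _ := Finset.sum_le_sum (fun i _ => h3 i)
  have h8 : 2 ≤ p ^ c := by
    calc 2 ≤ p := hp.two_le
      _ = p ^ 1 := (pow_one p).symm
      _ ≤ p ^ c := Nat.pow_le_pow_right hp.pos (by omega)
  obtain ⟨P, hP⟩ : ∃ P, p ^ c = P + 1 := ⟨p ^ c - 1, by omega⟩
  rw [hP] at h1 h6 h7 h8 ⊢
  simp only [Nat.add_sub_cancel] at h7
  have h9 : 2 * k * P ≤ (P + 2) * P := by
    have : (P + 1) ^ 2 - 1 = (P + 2) * P := by
      have : (P + 1) ^ 2 = (P + 2) * P + 1 := by ring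
      omega
    omega
  have := Nat.le_of_mul_le_mul_right h9 (by omega)
  omega

/-- the order of the subgroups is a prime power -/
theorem Hy.prime_pow (H : Hy G k v ι N D) : ∃ r b, r.Prime ∧ v = r ^ b := by
  have hv7 := H.v_pos
  have hk := H.hk
  have hr : v.minFac.Prime := Nat.minFac_prime (by omega)
  refine ⟨v.minFac, v.factorization v.minFac, hr, ?_⟩
  by_contra hne
  have h1 := H.spread _ hr (Nat.minFac_dvd v)
  obtain ⟨w, hw⟩ : v.minFac ^ (v.factorization v.minFac) ∣ v := Nat.ordProj_dvd v _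
  have hw1 : w ≠ 1 := by
    rintro rfl
    exact hne (by rw [mul_one] at hw; exact hw)
  have hp := Nat.minFac_prime hw1
  have hpv : w.minFac ∣ v := (Nat.minFac_dvd w).trans (Dvd.intro_left _ hw.symm)
  have h2 := H.spread _ hp hpv
  have hpr : v.minFac ≠ w.minFac := by
    intro h
    have h3 := Nat.not_dvd_ordCompl hr (by omega : v ≠ 0)
    apply h3
    have h4 : v / v.minFac ^ (v.factorization v.minFac) = w :=
      Nat.div_eq_of_eq_mul_right (pow_pos hr.pos _) hw
    rw [h4, h]
    exact Nat.minFac_dvd w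
  have hcop : Nat.Coprime (v.minFac ^ (v.factorization v.minFac)) (w.minFac ^ (v.factorization w.minFac)) :=
    Nat.coprime_pow_primes _ _ hr hp hpr
  have h3 := hcop.mul_dvd_of_dvd_of_dvd (Nat.ordProj_dvd v _) (Nat.ordProj_dvd v _)
  have h4 := Nat.le_of_dvd (by omega) h3
  have h5 : (2 * k - 1) * (2 * k - 1) ≤ v := le_trans (Nat.mul_le_mul (by omega) (by omega)) h4
  have h6 := H.hv
  obtain ⟨k', rfl⟩ : ∃ k', k = k' + 1 := ⟨k - 1, by omega⟩
  have e : 2 * (k' + 1) - 1 = 2 * k' + 1 := by omega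
  rw [e] at h5
  nlinarith

/-- There are no data of type (h). -/
theorem Hy.false (H : Hy G k v ι N D) : False := by
  obtain ⟨r, b, hr, hvr⟩ := H.prime_pow
  rcases nt k v r b H.hk H.hv hr hvr with ⟨q, a, j, hq, hqk, h3, hj0, hj⟩ | ⟨q, j, hq, hqk, hj0, hj⟩
  · exact H.false2 q a j hq hj0 hj hqk h3
  · exact H.false1 q j hq hj0 hj hqk

end

end Pool.Agent.Q166.QR
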