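import Pool.Agent.Q166.QR.Geo3
import Pool.Agent.Q166.QR.Spread

/-!
# Quasiregular groups of type (h): a regular line
-/

set_option autoImplicit false
set_option linter.all false

open Finset Configuration
open scoped Classical

namespace Pool.Agent.Q166.QR

section group

variable {P L G : Type} [Membership P L] [ProjectivePlane P L] [Fintype P] [Fintype L] [Group G] [Fintype G]
  [MulAction G P] [MulAction G L] {k v : ℕ}

theorem PG.st_eq (H : PG P L G k v) (x y : P) (hy : y ∈ ob G x) :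
    MulAction.stabilizer G y = MulAction.stabilizer G x := by
  rw [mem_ob] at hy
  apply le_antisymm
  · intro n hn
    have hx : x ∈ MulAction.orbit G y := MulAction.mem_orbit_symm.mp hy
    exact H.qp n y x hx hn
  · intro n hn
    exact H.qp n x y hy hn

theorem ob_symm (x y : P) (hy : y ∈ ob G x) : x ∈ ob G y := by
  rw [mem_ob] at hy ⊢
  exact MulAction.mem_orbit_symm.mp hy

theorem self_ob (x : P) : x ∈ ob G x := by
  rw [mem_ob]
  exact MulAction.mem_orbit_self _

theorem mk_mem (x : P) : x ∈ ob G ((Quotient.mk'' x : Om G P)).out := by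
  rw [← mk_eq_iff]

/-- a line with nontrivial stabilizer contains two points of an orbit which is not regular -/
theorem PH.two_points (H : PH P L G k v) (l : L) (hl : MulAction.stabilizer G l ≠ ⊥) :
    ∃ w : Ix G P, ∃ x ∈ ob G w.1.out, ∃ y ∈ ob G w.1.out, x ≠ y ∧ x ∈ l ∧ y ∈ l := by
  obtain ⟨M, hM⟩ : ∃ M, M = MulAction.stabilizer G l := ⟨_, rfl⟩
  have hMn : M.Normal := by
    constructor
    intro n hn g
    rwa [H.comm g n, mul_inv_cancel_right]
  rw [← hM] at hl
  obtain ⟨g, hg⟩ : ∃ g : G, g • l ≠ l := by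
    by_contra hcon
    push Not at hcon
    exact H.pg.nfl ⟨l, hcon⟩
  obtain ⟨z, hz1, hz2⟩ := exists_point (P := P) hg
  have hMz : ∀ m ∈ M, m • z = z := by
    intro m hm
    rw [hM, MulAction.mem_stabilizer_iff] at hm
    apply H.pg.fix_point m z (g • l) l hg _ hm hz1 hz2
    rw [smul_smul, H.comm, mul_smul, hm]
  have hst : MulAction.stabilizer G z ≠ ⊥ := by
    intro h
    apply hl
    rw [Subgroup.eq_bot_iff_forall]
    intro n hn
    have : n ∈ MulAction.stabilizer G z := hMz n hn
    rwa [h, Subgroup.mem_bot] at this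
  have h1 := H.pg.st_eq _ _ (mk_mem (G := G) z)
  obtain ⟨w, hw⟩ : ∃ w : Ix G P, w.1 = Quotient.mk'' z := by
    refine ⟨⟨Quotient.mk'' z, ?_⟩, rfl⟩
    intro h
    apply hst
    rw [h1]
    exact (Finset.mem_filter.mp h).2
  have hMw : M ≤ Ns w := by
    intro m hm
    unfold Ns
    rw [hw, ← h1]
    exact hMz m hm
  have h2 := H.FP_eq w M hMn hl hMw
  have hx : w.1.out ∈ FP P M := by rw [h2]; exact self_ob _
  have h3 := H.pg.card_FP M hMn _ hx
  have h4 := H.pg.tc_le M hMn hl _ hx
  have h5 := H.ob_card w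
  rw [← h2, h3] at h5
  have h6 := H.pg.hk
  have h7 := H.pg.hv
  have h8 : 1 < tc L M w.1.out := by
    by_contra h9
    have h10 : tc L M w.1.out * (tc L M w.1.out - 1) = 0 := by
      rcases Nat.lt_or_ge (tc L M w.1.out) 1 with h | h
      · rw [Nat.lt_one_iff.mp h]
      · have : tc L M w.1.out = 1 := by omega
        rw [this]
    rw [h10] at h5
    have := H.pg.vpos
    omega
  have hlF : l ∈ FL L M := by
    rw [mem_FL]
    intro n hn
    rw [hM] at hn
    exact hn
  rw [← H.pg.fc_const M hMn _ hx l hlF] at h8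
  obtain ⟨x, hx1, y, hy1, hxy⟩ := Finset.one_lt_card.mp h8
  rw [Finset.mem_filter, h2] at hx1 hy1
  exact ⟨w, x, hx1.1, y, hy1.1, hxy, hx1.2, hy1.2⟩

theorem PH.fix_of_two (H : PH P L G k v) (w : Ix G P) (x y : P) (l : L) (hx : x ∈ ob G w.1.out)
    (hy : y ∈ ob G w.1.out) (hxy : x ≠ y) (hxl : x ∈ l) (hyl : y ∈ l) : ∀ n ∈ Ns w, n • l = l := by
  intro n hn
  have h1 := (mem_FP _ _).mp (H.pg.ob_sub _ x hx) n hn
  have h2 := (mem_FP _ _).mp (H.pg.ob_sub _ y hy) n hn
  exact H.pg.fix_line n x y l hxy h1 h2 hxl hyl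

theorem PH.nonempty (H : PH P L G k v) : Nonempty (Ix G P) := by
  apply Fintype.card_pos_iff.mp
  rw [H.card_Ix]
  have := H.pg.hk
  omega

/-- a regular line through a regular point -/
theorem PH.exists_reg (H : PH P L G k v) (p0 : P) (hp0 : MulAction.stabilizer G p0 = ⊥) :
    ∃ l : L, p0 ∈ l ∧ MulAction.stabilizer G l = ⊥ := by
  by_contra hcon
  push Not at hcon
  have hne := H.nonempty
  have h1 : ∀ l : L, p0 ∈ l → ∃ w : Ix G P, ∀ n ∈ Ns w, n • l = l := by
    intro l hl
    obtain ⟨w, x, hx, y, hy, hxy, hxl, hyl⟩ := H.two_points l (hcon l hl)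
    exact ⟨w, H.fix_of_two w x y l hx hy hxy hxl hyl⟩
  choose! F hF using h1
  have h2 : (univ.filter fun l : L => p0 ∈ l).card ≤ (univ : Finset (Ix G P)).card := by
    apply Finset.card_le_card_of_injOn F (fun _ _ => mem_univ _)
    intro l hl m hm he
    rw [Finset.mem_coe, Finset.mem_filter] at hl hm
    by_contra hlm
    have h3 : ∀ n ∈ Ns (F l), n • p0 = p0 := by
      intro n hn
      exact H.pg.fix_point n p0 l m hlm (hF l hl.2 n hn) (hF m hm.2 n (by rw [← he]; exact hn)) hl.2 hm.2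
    apply H.Ns_ne (F l)
    rw [Subgroup.eq_bot_iff_forall]
    intro n hn
    have : n ∈ MulAction.stabilizer G p0 := h3 n hn
    rwa [hp0, Subgroup.mem_bot] at this
  rw [H.pg.card_through, Finset.card_univ, H.card_Ix] at h2
  have := H.pg.hk
  nlinarith

/-- a regular point -/
theorem PH.exists_p0 (H : PH P L G k v) : ∃ p0 : P, MulAction.stabilizer G p0 = ⊥ ∧
    ∀ x : P, x ∉ ob G p0 → (Quotient.mk'' x : Om G P) ∉ RO G P := by
  obtain ⟨w, hw⟩ := Finset.card_eq_one.mp (H.pg.card_RO H.hQ).1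
  have hwR : w ∈ RO G P := by rw [hw]; exact Finset.mem_singleton_self _
  refine ⟨w.out, (Finset.mem_filter.mp hwR).2, ?_⟩
  intro x hx h
  apply hx
  rw [hw, Finset.mem_singleton] at h
  rw [← mk_eq_iff]
  exact h

/-- the data: a regular point and a regular line -/
structure PL (P L G : Type) [Membership P L] [ProjectivePlane P L] [Fintype P] [Fintype L] [Group G] [Fintype G]
    [MulAction G P] [MulAction G L] (k v : ℕ) (p0 : P) (l0 : L) : Prop where
  ph : PH P L G k v
  hp0 : MulAction.stabilizer G p0 = ⊥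
  hR : ∀ x : P, x ∉ ob G p0 → (Quotient.mk'' x : Om G P) ∉ RO G P
  hl0 : MulAction.stabilizer G l0 = ⊥

variable {p0 : P} {l0 : L}

/-- the difference set -/
noncomputable def DD (G : Type) {P L : Type} [Membership P L] [Group G] [Fintype G] [MulAction G P] (p0 : P)
    (l0 : L) : Finset G := univ.filter fun g => g • p0 ∈ l0

theorem mem_DD (g : G) : g ∈ DD G p0 l0 ↔ g • p0 ∈ l0 := by simp [DD]

/-- the orbits which meet the line -/
noncomputable def II' (G : Type) {P L : Type} [Membership P L] [Fintype P] [Group G] [MulAction G P] (l0 : L) :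
    Finset (Ix G P) := univ.filter fun w => ∃ x ∈ ob G w.1.out, x ∈ l0

theorem PL.one_point (H : PL P L G k v p0 l0) (w : Ix G P) (x y : P) (hx : x ∈ ob G w.1.out)
    (hy : y ∈ ob G w.1.out) (hxl : x ∈ l0) (hyl : y ∈ l0) : x = y := by
  by_contra hxy
  have h1 := H.ph.fix_of_two w x y l0 hx hy hxy hxl hyl
  apply H.ph.Ns_ne w
  rw [Subgroup.eq_bot_iff_forall]
  intro n hn
  have : n ∈ MulAction.stabilizer G l0 := h1 n hn
  rwa [H.hl0, Subgroup.mem_bot] at this

theorem PL.inj (H : PL P L G k v p0 l0) (g h : G) (e : g • p0 = h • p0) : g = h := by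
  have h1 : h⁻¹ * g ∈ MulAction.stabilizer G p0 := by
    rw [MulAction.mem_stabilizer_iff, mul_smul, e, inv_smul_smul]
  rw [H.hp0, Subgroup.mem_bot] at h1
  exact (inv_mul_eq_one.mp h1).symm

theorem PL.not_both (H : PL P L G k v p0 l0) (w : Ix G P) (x : P) (hx : x ∈ ob G w.1.out) : x ∉ ob G p0 := by
  intro h
  have h1 := H.ph.pg.st_eq _ _ hx
  have h2 := H.ph.pg.st_eq _ _ h
  rw [H.hp0] at h2
  rw [h2] at h1
  exact H.ph.Ns_ne w h1.symm

theorem PL.card_D (H : PL P L G k v p0 l0) : (DD G p0 l0).card + (II' G (P := P) l0).card = k ^ 2 + 1 := by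
  rw [← H.ph.pg.card_on l0, ← Finset.card_filter_add_card_filter_not (s := univ.filter fun x : P => x ∈ l0)
    (fun x => x ∈ ob G p0)]
  congr 1
  · apply Finset.card_bij (fun g _ => g • p0)
    · intro g hg
      rw [mem_DD] at hg
      rw [Finset.mem_filter, Finset.mem_filter, mem_ob]
      exact ⟨⟨mem_univ _, hg⟩, MulAction.mem_orbit _ _⟩
    · intro g _ h _ e
      exact H.inj g h e
    · intro x hx
      rw [Finset.mem_filter, Finset.mem_filter, mem_ob] at hx
      obtain ⟨g, hg⟩ := hx.2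
      refine ⟨g, ?_, hg⟩
      rw [mem_DD]
      have : g • p0 = x := hg
      rw [this]
      exact hx.1.2
  · symm
    apply Finset.card_bij (fun (x : P) (hx : x ∈ (univ.filter fun x : P => x ∈ l0).filter fun x => x ∉ ob G p0) =>
      (⟨Quotient.mk'' x, H.hR x (Finset.mem_filter.mp hx).2⟩ : Ix G P))
    · intro x hx
      rw [Finset.mem_filter, Finset.mem_filter] at hx
      exact Finset.mem_filter.mpr ⟨mem_univ _, x, mk_mem x, hx.1.2⟩
    · intro x hx y hy e
      have e1 : (Quotient.mk'' x : Om G P) = Quotient.mk'' y := congrArg Subtype.val e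
      rw [Finset.mem_filter, Finset.mem_filter] at hx hy
      apply H.one_point ⟨Quotient.mk'' x, H.hR x hx.2⟩ x y (mk_mem x) _ hx.1.2 hy.1.2
      show y ∈ ob G (Quotient.mk'' x : Om G P).out
      rw [e1]
      exact mk_mem y
    · intro w hw
      obtain ⟨x, hx, hxl⟩ := (Finset.mem_filter.mp hw).2
      refine ⟨x, ?_, ?_⟩
      · rw [Finset.mem_filter, Finset.mem_filter]
        exact ⟨⟨mem_univ _, hxl⟩, H.not_both w x hx⟩
      · apply Subtype.ext
        exact (mk_eq_iff _ _).mpr hx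

theorem PL.R_one (H : PL P L G k v p0 l0) : ((DD G p0 l0).filter fun y => 1 * y ∈ DD G p0 l0).card =
    (DD G p0 l0).card := by
  congr 1
  ext y
  rw [Finset.mem_filter, one_mul]
  exact and_self_iff

theorem PL.R_ne (H : PL P L G k v p0 l0) (g : G) (hg : g ≠ 1) :
    (((DD G p0 l0).filter fun y => g * y ∈ DD G p0 l0).card : ℤ) =
      1 - ∑ w ∈ II' G (P := P) l0, (if g ∈ Ns w then (1 : ℤ) else 0) := by
  have hne : l0 ≠ g⁻¹ • l0 := by
    intro h
    have h1 : g ∈ MulAction.stabilizer G l0 := by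
      rw [MulAction.mem_stabilizer_iff]
      conv_lhs => rw [h]
      exact smul_inv_smul g l0
    rw [H.hl0, Subgroup.mem_bot] at h1
    exact hg h1
  obtain ⟨z, hz1, hz2⟩ := exists_point (P := P) hne
  have hz3 : g • z ∈ l0 := by
    have := (H.ph.pg.inc g z _).mp hz2
    rwa [smul_inv_smul] at this
  have huniq : ∀ x : P, x ∈ l0 → g • x ∈ l0 → x = z := by
    intro x hx1 hx2
    apply pt_eq hne hx1 _ hz1 hz2
    rw [H.ph.pg.inc g, smul_inv_smul]
    exact hx2
  by_cases hz : z ∈ ob G p0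
  · have h1 : ∀ w ∈ II' G (P := P) l0, (if g ∈ Ns w then (1 : ℤ) else 0) = 0 := by
      intro w hw
      rw [if_neg]
      intro hgw
      obtain ⟨x, hx, hxl⟩ := (Finset.mem_filter.mp hw).2
      have h2 := (mem_FP _ _).mp (H.ph.pg.ob_sub _ x hx) g hgw
      have h3 := huniq x hxl (by rw [h2]; exact hxl)
      rw [h3] at hx
      exact H.not_both w z hx hz
    rw [Finset.sum_eq_zero h1, sub_zero]
    rw [mem_ob] at hz
    obtain ⟨y0, hy0⟩ := hz
    have hy0' : y0 • p0 = z := hy0
    have h2 : ((DD G p0 l0).filter fun y => g * y ∈ DD G p0 l0) = {y0} := by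
      ext y
      rw [Finset.mem_filter, mem_DD, mem_DD, Finset.mem_singleton]
      constructor
      · rintro ⟨h3, h4⟩
        rw [mul_smul] at h4
        apply H.inj
        rw [huniq _ h3 h4, hy0']
      · rintro rfl
        rw [mul_smul, hy0']
        exact ⟨hz1, hz3⟩
    rw [h2, Finset.card_singleton]
    rfl
  · have h2 : ((DD G p0 l0).filter fun y => g * y ∈ DD G p0 l0) = ∅ := by
      apply Finset.eq_empty_of_forall_notMem
      intro y hy
      rw [Finset.mem_filter, mem_DD, mem_DD, mul_smul] at hy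
      apply hz
      rw [← huniq _ hy.1 hy.2, mem_ob]
      exact MulAction.mem_orbit _ _
    rw [h2, Finset.card_empty]
    have hzR := H.hR z hz
    obtain ⟨w, hw⟩ : ∃ w : Ix G P, w = ⟨Quotient.mk'' z, hzR⟩ := ⟨_, rfl⟩
    have hzw : z ∈ ob G w.1.out := by rw [hw]; exact mk_mem z
    have hgz : g • z ∈ ob G w.1.out := by
      rw [mem_ob] at hzw ⊢
      exact MulAction.mem_orbit_of_mem_orbit g hzw
    have h3 : g • z = z := H.one_point w _ _ hgz hzw hz3 hz1
    have h4 : g ∈ Ns w := by
      unfold Ns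
      rw [← H.ph.pg.st_eq _ _ hzw]
      exact h3
    have h5 : w ∈ II' G (P := P) l0 := Finset.mem_filter.mpr ⟨mem_univ _, z, hzw, hz1⟩
    rw [Finset.sum_eq_single_of_mem w h5, if_pos h4]
    · norm_num
    · intro w' _ hne'
      rw [if_neg]
      intro h6
      have h7 : g ∈ Ns w' ⊓ Ns w := ⟨h6, h4⟩
      rw [H.ph.Ns_inf w' w hne', Subgroup.mem_bot] at h7
      exact hg h7

/-- the formula for the differences -/
theorem PL.R_eq (H : PL P L G k v p0 l0) (g : G) :
    (((DD G p0 l0).filter fun y => g * y ∈ DD G p0 l0).card : ℤ) =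
      (if g = 1 then (k : ℤ) ^ 2 else 0) + 1 - ∑ w ∈ II' G (P := P) l0, (if g ∈ Ns w then (1 : ℤ) else 0) := by
  by_cases hg : g = 1
  · subst hg
    rw [if_pos rfl, H.R_one]
    have h1 := H.card_D
    have h2 : ∑ w ∈ II' G (P := P) l0, (if (1 : G) ∈ Ns w then (1 : ℤ) else 0) = (II' G (P := P) l0).card := by
      rw [Finset.sum_congr rfl (fun w _ => if_pos (Ns w).one_mem)]
      simp
    rw [h2]
    zify at h1
    linarith
  · rw [if_neg hg, zero_add, H.R_ne g hg]

theorem PL.sum_R (H : PL P L G k v p0 l0) :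
    ∑ g : G, (((DD G p0 l0).filter fun y => g * y ∈ DD G p0 l0).card : ℤ) = ((DD G p0 l0).card : ℤ) ^ 2 := by
  have h1 : ∀ g : G, (((DD G p0 l0).filter fun y => g * y ∈ DD G p0 l0).card : ℤ) =
      ∑ y ∈ DD G p0 l0, (if g * y ∈ DD G p0 l0 then (1 : ℤ) else 0) := by
    intro g
    rw [Finset.card_filter]
    push_cast
    rfl
  rw [Finset.sum_congr rfl (fun g _ => h1 g), Finset.sum_comm]
  have h2 : ∀ y : G, ∑ g : G, (if g * y ∈ DD G p0 l0 then (1 : ℤ) else 0) = (DD G p0 l0).card := by
    intro y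
    rw [Fintype.sum_equiv (Equiv.mulRight y) (fun g => if g * y ∈ DD G p0 l0 then (1 : ℤ) else 0)
      (fun g => if g ∈ DD G p0 l0 then (1 : ℤ) else 0) (fun g => rfl)]
    rw [Finset.sum_ite_mem, Finset.univ_inter]
    simp
  rw [Finset.sum_congr rfl (fun y _ => h2 y), Finset.sum_const, nsmul_eq_mul, pow_two]

theorem PL.card_I (H : PL P L G k v p0 l0) : (II' G (P := P) l0).card = 2 * k := by
  have h1 := H.sum_R
  rw [Finset.sum_congr rfl (fun g _ => H.R_eq g), Finset.sum_sub_distrib, Finset.sum_add_distrib,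
    Finset.sum_comm] at h1
  have h2 : ∀ w : Ix G P, ∑ g : G, (if g ∈ Ns w then (1 : ℤ) else 0) = v := by
    intro w
    rw [← Finset.sum_filter, Finset.sum_const, nsmul_eq_mul, mul_one, ← H.ph.Ns_card w, Nat.card_eq_fintype_card,
      Fintype.card_subtype]
  rw [Finset.sum_congr rfl (fun w _ => h2 w)] at h1
  simp only [Finset.sum_ite_eq', Finset.sum_const, Finset.card_univ, nsmul_eq_mul, mul_one, mem_univ, if_true,
    H.ph.pg.hG] at h1
  have h3 := H.card_D
  have h4 := H.ph.pg.hv
  have h5 := H.ph.pg.two_k_lt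
  have h6 : (II' G (P := P) l0).card ≤ 2 * k := by
    rw [← H.ph.card_Ix]
    exact Finset.card_le_univ _
  zify at h3 h4
  have h7 : ((DD G p0 l0).card : ℤ) = k ^ 2 + 1 - (II' G (P := P) l0).card := by linarith
  have h8 : (v : ℤ) = k ^ 2 - k + 1 := by linarith
  rw [h7] at h1
  have h9 : (((II' G (P := P) l0).card : ℤ) - 2 * k) * ((II' G (P := P) l0).card - v) = 0 := by
    push_cast at h1
    rw [h8] at h1 ⊢
    linear_combination -h1
  rcases mul_eq_zero.mp h9 with h10 | h10
  · have : ((II' G (P := P) l0).card : ℤ) = 2 * k := by linarith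
    exact_mod_cast this
  · exfalso
    have h11 : (II' G (P := P) l0).card = v := by
      have : ((II' G (P := P) l0).card : ℤ) = v := by linarith
      exact_mod_cast this
    omega

theorem PL.false (H : PL P L G k v p0 l0) : False := by
  let inst : CommGroup G := { (inferInstance : Group G) with mul_comm := H.ph.comm }
  have hI : II' G (P := P) l0 = univ := by
    apply Finset.eq_univ_of_card
    rw [H.card_I, H.ph.card_Ix]
  have hk := H.ph.pg.hk
  have key : @Hy G inst _ k v (Ix G P) _ (fun w => Ns w) (DD G p0 l0) := by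
    refine ⟨hk, H.ph.pg.hv, H.ph.pg.hG, H.ph.card_Ix, fun i => H.ph.Ns_card i, fun i j hij => H.ph.Ns_inf i j hij,
      ?_, ?_⟩
    · have h3 := H.card_D
      rw [H.card_I] at h3
      zify at h3
      linarith
    · intro g
      have := H.R_eq g
      rw [hI] at this
      exact this
  exact key.false

theorem PH.false (H : PH P L G k v) : False := by
  obtain ⟨p0, hp0, hR⟩ := H.exists_p0
  obtain ⟨l0, _, hl0⟩ := H.exists_reg p0 hp0
  exact PL.false (p0 := p0) (l0 := l0) ⟨H, hp0, hR, hl0⟩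

end group

end Pool.Agent.Q166.QR
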