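import Pool.Agent.Q166.QR.Conj

/-!
# Quasiregular groups of type (h): the group ring equations
-/

set_option autoImplicit false
set_option linter.all false

open Finset
open scoped Classical

namespace Pool.Agent.Q166.QR

variable {G : Type} [CommGroup G] [Fintype G]

/-- the sum of the elements of a set -/
noncomputable def S (A : Finset G) : MonoidAlgebra ℤ G := ∑ g ∈ A, MonoidAlgebra.single g 1

theorem S_coeff (A : Finset G) (g : G) : (S A).coeff g = if g ∈ A then 1 else 0 := by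
  unfold S
  simp [MonoidAlgebra.coeff_sum, Finsupp.finsetSum_apply, Finsupp.single_apply]

theorem coeff_mul_sum (X Y : MonoidAlgebra ℤ G) (g : G) :
    (X * Y).coeff g = ∑ h, X.coeff h * Y.coeff (h⁻¹ * g) := by
  rw [MonoidAlgebra.coeff_mul_apply_left, Finsupp.sum_fintype]
  intro i
  simp

theorem coeff_mul_S (X : MonoidAlgebra ℤ G) (A : Finset G) (g : G) :
    (X * S A).coeff g = ∑ y ∈ A, X.coeff (g * y⁻¹) := by
  rw [mul_comm, coeff_mul_sum]
  simp only [S_coeff, ite_mul, one_mul, zero_mul]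
  rw [Finset.sum_ite_mem, Finset.univ_inter]
  exact Finset.sum_congr rfl (fun y _ => by rw [mul_comm])

theorem natCast_coeff (n : ℕ) (X : MonoidAlgebra ℤ G) (g : G) :
    ((n : MonoidAlgebra ℤ G) * X).coeff g = n * X.coeff g := by
  rw [← nsmul_eq_mul, MonoidAlgebra.coeff_smul]
  simp

theorem intCast_coeff (n : ℤ) (X : MonoidAlgebra ℤ G) (g : G) :
    ((n : MonoidAlgebra ℤ G) * X).coeff g = n * X.coeff g := by
  rw [← zsmul_eq_mul, smul_coeff]

/-- the whole group -/
noncomputable abbrev Ga (G : Type) [CommGroup G] [Fintype G] : MonoidAlgebra ℤ G := S (univ : Finset G)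

theorem S_mul_Ga (A : Finset G) : S A * Ga G = (A.card : MonoidAlgebra ℤ G) * Ga G := by
  ext g
  rw [mul_comm (S A), coeff_mul_S, natCast_coeff, S_coeff]
  simp [S_coeff]

theorem mul_Ga_coeff (X : MonoidAlgebra ℤ G) (g : G) : (X * Ga G).coeff g = ∑ h, X.coeff h := by
  rw [coeff_mul_S]
  exact Fintype.sum_equiv (Equiv.divLeft g) _ _ (fun y => by simp [div_eq_mul_inv])

theorem mul_st_coeff_one (X : MonoidAlgebra ℤ G) : (X * st ℤ X).coeff 1 = ∑ h, X.coeff h ^ 2 := by
  rw [coeff_mul_sum]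
  refine Finset.sum_congr rfl (fun h _ => ?_)
  rw [st_coeff, mul_one, inv_inv, pow_two]

theorem st_S_of_inv (A : Finset G) (hA : ∀ g, g⁻¹ ∈ A ↔ g ∈ A) : st ℤ (S A) = S A := by
  ext g
  rw [st_coeff, S_coeff, S_coeff]
  simp [hA]

/-- the elements of a subgroup -/
noncomputable def sf (N : Subgroup G) : Finset G := univ.filter (· ∈ N)

theorem mem_sf (N : Subgroup G) (g : G) : g ∈ sf N ↔ g ∈ N := by simp [sf]

theorem card_sf (N : Subgroup G) : (sf N).card = Nat.card N := by
  rw [Nat.card_eq_fintype_card, Fintype.card_subtype]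
  rfl

theorem S_sf_sq (N : Subgroup G) : S (sf N) * S (sf N) = (Nat.card N : MonoidAlgebra ℤ G) * S (sf N) := by
  ext g
  rw [coeff_mul_S, natCast_coeff, S_coeff, ← card_sf]
  simp only [S_coeff]
  by_cases hg : g ∈ N
  · rw [if_pos ((mem_sf N g).mpr hg)]
    rw [Finset.sum_congr rfl (g := fun _ => (1 : ℤ))]
    · simp
    · intro y hy
      rw [if_pos]
      rw [mem_sf] at hy ⊢
      exact N.mul_mem hg (N.inv_mem hy)
  · rw [if_neg (fun h => hg ((mem_sf N g).mp h)), mul_zero]
    apply Finset.sum_eq_zero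
    intro y hy
    rw [if_neg]
    rw [mem_sf] at hy ⊢
    intro h
    apply hg
    have := N.mul_mem h hy
    simpa using this

theorem S_sf_mul (N M : Subgroup G) (hNM : N ⊓ M = ⊥) (hc : Nat.card N * Nat.card M = Fintype.card G) :
    S (sf N) * S (sf M) = Ga G := by
  have hinj : Set.InjOn (fun p : G × G => p.1 * p.2) ↑((sf N) ×ˢ (sf M)) := by
    rintro ⟨a, b⟩ h1 ⟨a', b'⟩ h2 h
    simp only [Finset.coe_product, Set.mem_prod, Finset.mem_coe, mem_sf] at h1 h2 h
    have h3 : a'⁻¹ * a = b' * b⁻¹ := by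
      rw [inv_mul_eq_iff_eq_mul, ← mul_assoc, eq_mul_inv_iff_mul_eq]
      exact h
    have h4 : a'⁻¹ * a ∈ N ⊓ M := by
      refine ⟨N.mul_mem (N.inv_mem h2.1) h1.1, ?_⟩
      rw [h3]
      exact M.mul_mem h2.2 (M.inv_mem h1.2)
    rw [hNM, Subgroup.mem_bot] at h4
    have h5 : a = a' := (inv_mul_eq_one.mp h4).symm
    subst h5
    exact Prod.ext rfl (mul_left_cancel h)
  have him : ((sf N) ×ˢ (sf M)).image (fun p : G × G => p.1 * p.2) = univ := by
    apply Finset.eq_univ_of_card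
    rw [Finset.card_image_of_injOn hinj, Finset.card_product, card_sf, card_sf, hc]
  have : S (sf N) * S (sf M) = ∑ p ∈ (sf N) ×ˢ (sf M), MonoidAlgebra.single (p.1 * p.2) (1 : ℤ) := by
    unfold S
    rw [Finset.sum_mul_sum, ← Finset.sum_product']
    simp
  rw [this]
  unfold Ga S
  rw [← him, Finset.sum_image hinj]

theorem S_st_coeff (D : Finset G) (g : G) :
    (S D * st ℤ (S D)).coeff g = ((D.filter fun y => g * y ∈ D).card : ℤ) := by
  rw [mul_comm, coeff_mul_S]
  simp only [st_coeff, S_coeff]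
  have : ∀ y ∈ D, (if (g * y⁻¹)⁻¹ ∈ D then (1 : ℤ) else 0) = if g⁻¹ * y ∈ D then 1 else 0 := by
    intro y _
    rw [mul_inv, inv_inv]
  rw [Finset.sum_congr rfl this, ← Finset.sum_filter, Finset.sum_const, nsmul_eq_mul, mul_one]
  congr 1
  apply Finset.card_bij' (fun y _ => g⁻¹ * y) (fun y _ => g * y)
  · intro y hy
    rw [Finset.mem_filter] at hy ⊢
    exact ⟨hy.2, by simpa using hy.1⟩
  · intro y hy
    rw [Finset.mem_filter] at hy ⊢
    exact ⟨hy.2, by simpa using hy.1⟩
  · intro y _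
    simp
  · intro y _
    simp

end Pool.Agent.Q166.QR
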